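import Pool.Agent.Lib.MP_cc278a_pr.SG.Step

set_option autoImplicit false
open MeasureTheory ProbabilityTheory Real Set Filter Topology
open scoped NNReal ENNReal

namespace Pool.Agent.Lib.MP_cc278a_pr.SG

theorem ST.core {μ : Measure ℝ} [IsProbabilityMeasure μ] {d : ℝ} (h : ST (7 / 6) μ d) :
    DD μ ≤ d := by
  by_contra hd
  rw [not_le] at hd
  have r0 : Psi μ (1 / 2) ≤ (973 / 10000) := by
    have := h.regime (q := (71 / 100)) (e := (7 / 5)) (κ := (669 / 1000)) (u := (407 / 500))
      (b := (11563 / 10000)) (m := (1 / 25)) (g := (11 / 10000)) (s := (3 / 10))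
      (A := (99001 / 60000)) (B := 0) (C := 0) (by norm_num) (by norm_num) (by norm_num) (by norm_num)
      (by norm_num) (by norm_num) (by norm_num) (by norm_num) (by norm_num) (by norm_num)
      (by norm_num) (by norm_num) (Or.inl (by norm_num))
      (term 9 (by norm_num) (by norm_num) (by norm_num) (by norm_num) (by norm_num) (by norm_num)
        (by norm_num) (by norm_num) (by norm_num)
        (fun k h1 h2 => by interval_cases k <;> norm_num) (by norm_num) (by norm_num))
    norm_num at this ⊢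
    linarith
  have r1 : Psi μ (1 / 2) ≤ (89 / 1250) :=
    h.fock hd r0 (73 / 100) (27 / 20) (669 / 1000) (407 / 500) (2919 / 2500) (3 / 100)
      (3 / 6250) (1 / 4) (71 / 100) (39 / 100) 10 (by norm_num)
      (fun k h1 h2 => by interval_cases k <;> norm_num)
  have r2 : Psi μ (1 / 2) ≤ (109 / 2000) :=
    h.fock hd r1 (37 / 50) (13 / 10) (667 / 1000) (161 / 200) (2347 / 2000) (1 / 25)
      (49 / 100000) (1 / 4) (657 / 1000) (17 / 50) 10 (by norm_num)
      (fun k h1 h2 => by interval_cases k <;> norm_num)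
  have r3 : Psi μ (1 / 2) ≤ (193 / 5000) :=
    h.fock hd r2 (77 / 100) (23 / 20) (659 / 1000) (31 / 40) (11923 / 10000) (3 / 100)
      (13 / 50000) (1 / 4) (307 / 500) (29 / 100) 11 (by norm_num)
      (fun k h1 h2 => by interval_cases k <;> norm_num)
  have r4 : Psi μ (1 / 2) ≤ (267 / 10000) :=
    h.fock hd r3 (79 / 100) (23 / 20) (83 / 125) (793 / 1000) (12057 / 10000) (1 / 50)
      (3 / 25000) (1 / 4) (141 / 250) (1 / 4) 12 (by norm_num)
      (fun k h1 h2 => by interval_cases k <;> norm_num)
  have r5 : Psi μ (1 / 2) ≤ (129 / 10000) :=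
    h.fock hd r4 (41 / 50) 1 (131 / 200) (757 / 1000) (6137 / 5000) (1 / 50)
      (29 / 500000) (1 / 4) (257 / 500) (21 / 100) 13 (by norm_num)
      (fun k h1 h2 => by interval_cases k <;> norm_num)
  have r6 : Psi μ (1 / 2) ≤ (31 / 25000) :=
    h.fock hd r5 (89 / 100) (7 / 10) (127 / 200) (169 / 250) (3217 / 2500) (3 / 400)
      (1 / 625000) (1 / 5) (429 / 1000) (3 / 20) 18 (by norm_num)
      (fun k h1 h2 => by interval_cases k <;> norm_num)
  have hdU : d ≤ (31 / 25000) := (hd.le.trans (h.hk.DD_le h.l2)).trans r6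
  have := h.regime (q := 1) (e := (1 / 4)) (κ := (593 / 1000)) (u := (61 / 125))
    (b := (14143 / 10000)) (m := 0) (g := 0) (s := 1 / 2) (by norm_num) (by norm_num) (by norm_num)
    (by norm_num) (by norm_num) (by norm_num) (by norm_num) (by norm_num) (by norm_num)
    (by norm_num) (by norm_num) (by norm_num)
    (Or.inr ⟨(239 / 1000), (11 / 250), by norm_num, by norm_num, by norm_num; linarith, rfl, rfl, rfl⟩)
    (fun k hk => by
      have a3 := pow_le_pow_of_le_one (a := (1 / 2 : ℝ)) (by norm_num) (by norm_num) hk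
      have a4 := pow_le_pow_of_le_one (a := (1 / 3 : ℝ)) (by norm_num) (by norm_num) hk
      rw [one_pow]
      nlinarith)
  linarith

end Pool.Agent.Lib.MP_cc278a_pr.SG
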