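import Pool.Agent.Lib.MP_cc278a_pr.SG.Series

set_option autoImplicit false
open MeasureTheory ProbabilityTheory Real Set Filter Topology
open scoped NNReal ENNReal ComplexConjugate Nat

namespace Pool.Agent.Lib.MP_cc278a_pr.SG

/-- Laplace transform dominated by `K` times the standard Gaussian one. -/
structure HK (K : ℝ) (μ : Measure ℝ) : Prop where
  int : ∀ l : ℝ, Integrable (fun x => exp (l * x)) μ
  le : ∀ l : ℝ, ∫ x, exp (l * x) ∂μ ≤ K * exp (l ^ 2 / 2)

lemma HK_gm {K : ℝ} (hK : 1 ≤ K) : HK K (gm 1) := by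
  refine ⟨fun l => integrable_exp_mul_gaussianReal l, fun l => ?_⟩
  have := congrFun (mgf_fun_id_gaussianReal (μ := 0) (v := 1)) l
  unfold mgf at this
  unfold gm
  rw [this]
  simp only [zero_mul, NNReal.coe_one, one_mul, zero_add]
  nlinarith [exp_pos (l ^ 2 / 2)]

lemma HK.pos {K : ℝ} {μ : Measure ℝ} [IsProbabilityMeasure μ] (h : HK K μ) : 1 ≤ K := by
  simpa using h.le 0

/-- Bargmann transform of a law. -/
noncomputable def ss (μ : Measure ℝ) (z : ℂ) : ℂ := ∫ x, ee x z ∂μ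

lemma continuous_ee_left (z : ℂ) : Continuous (fun x => ee x z) := by unfold ee; fun_prop

section
variable {K : ℝ} {μ : Measure ℝ}

lemma HK.ee_int (h : HK K μ) (z : ℂ) : Integrable (fun x => ee x z) μ := by
  refine (((h.int z.re).mul_const (exp (-(z.re ^ 2 / 2)))).mul_const (exp (z.im ^ 2 / 2))).mono'
    (continuous_ee_left z).aestronglyMeasurable (Eventually.of_forall fun x => (norm_ee x z).le)

lemma HK.ee_norm (h : HK K μ) (z : ℂ) : ∫ x, ‖ee x z‖ ∂μ ≤ K * exp (z.im ^ 2 / 2) := by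
  simp_rw [norm_ee]
  rw [integral_mul_const, integral_mul_const]
  refine mul_le_mul_of_nonneg_right ?_ (exp_pos _).le
  calc _ ≤ K * exp (z.re ^ 2 / 2) * exp (-(z.re ^ 2 / 2)) :=
        mul_le_mul_of_nonneg_right (h.le _) (exp_pos _).le
    _ = K := by rw [mul_assoc, ← Real.exp_add]; simp

lemma HK.ss_norm (h : HK K μ) (z : ℂ) : ‖ss μ z‖ ≤ K * exp (z.im ^ 2 / 2) :=
  (norm_integral_le_integral_norm _).trans (h.ee_norm z)

lemma ss_eq (μ : Measure ℝ) (z : ℂ) :
    ss μ z = complexMGF id μ z * Complex.exp (-(z ^ 2 / 2)) := by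
  unfold ss complexMGF ee
  rw [← integral_mul_const]
  congr 1; ext x
  rw [← Complex.exp_add]; rfl

lemma ss_gm (z : ℂ) : ss (gm 1) z = 1 := by
  rw [ss_eq]; unfold gm
  rw [complexMGF_id_gaussianReal, ← Complex.exp_add]
  simp

lemma HK.mem (h : HK K μ) (z : ℂ) : z.re ∈ interior (integrableExpSet id μ) := by
  have : integrableExpSet id μ = univ := by
    ext l; simpa [integrableExpSet] using h.int l
  simp [this]

lemma HK.hasDerivAt (h : HK K μ) (n : ℕ) (z : ℂ) :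
    HasDerivAt (fun z : ℂ => ∫ x : ℝ, (x : ℂ) ^ n * Complex.exp (z * x) ∂μ)
      (∫ x : ℝ, (x : ℂ) ^ (n + 1) * Complex.exp (z * x) ∂μ) z :=
  hasDerivAt_integral_pow_mul_exp (X := id) (h.mem z) n

lemma hasDerivAt_E (z : ℂ) :
    HasDerivAt (fun z : ℂ => Complex.exp (-(z ^ 2 / 2))) (Complex.exp (-(z ^ 2 / 2)) * (-z)) z := by
  have : HasDerivAt (fun z : ℂ => -(z ^ 2 / 2)) (-z) z := by
    exact (((hasDerivAt_pow 2 z).div_const 2).neg).congr_deriv (by simp)
  exact this.cexp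

lemma HK.ss_deriv (h : HK K μ) (z : ℂ) :
    HasDerivAt (fun z => ss μ z - 1)
      ((∫ x : ℝ, (x : ℂ) ^ 1 * Complex.exp (z * x) ∂μ) * Complex.exp (-(z ^ 2 / 2))
        + (∫ x : ℝ, (x : ℂ) ^ 0 * Complex.exp (z * x) ∂μ) * (Complex.exp (-(z ^ 2 / 2)) * (-z))) z := by
  have h1 := ((h.hasDerivAt 0 z).mul (hasDerivAt_E z)).sub_const 1
  have h2 : (fun z => ss μ z - 1) = fun x => ((fun z : ℂ => ∫ x : ℝ, (x : ℂ) ^ 0
      * Complex.exp (z * x) ∂μ) * fun z : ℂ => Complex.exp (-(z ^ 2 / 2))) x - 1 := by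
    ext w
    rw [ss_eq]; simp [complexMGF]
  rw [h2]; exact h1

lemma HK.ss_diff (h : HK K μ) : Differentiable ℂ (fun z => ss μ z - 1) :=
  fun z => (h.ss_deriv z).differentiableAt

lemma HK.ss_cont (h : HK K μ) : Continuous (ss μ) := by
  have := h.ss_diff.continuous.add (continuous_const (y := (1 : ℂ)))
  exact this.congr fun z => by simp

/-- The weighted square norm. -/
noncomputable def JJ (μ : Measure ℝ) (q β : ℝ) : ℝ :=
  ∫ z : ℂ, ‖ss μ (q * z) - 1‖ ^ 2 * exp (-β * ‖z‖ ^ 2)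

theorem HK.coeff [IsProbabilityMeasure μ] (h : HK K μ) (h1 : ∫ x, x ∂μ = 0)
    (h2 : ∫ x, x ^ 2 ∂μ = 1) :
    ∃ c : ℕ → ℝ, (∀ k, 0 ≤ c k) ∧ c 0 = 0 ∧ c 1 = 0 ∧ c 2 = 0 ∧ ∀ q β : ℝ, 0 < q → q ≤ 1 → 1 < β →
      HasSum (fun k => c k * (π * q ^ (2 * k) / β ^ (k + 1))) (JJ μ q β) := by
  have hK := h.pos
  set f : ℂ → ℂ := fun z => ss μ z - 1 with hf
  set a : ℕ → ℂ := fun k => (k ! : ℂ)⁻¹ * iteratedDeriv k f 0 with ha
  have hsum : ∀ z, HasSum (fun k => a k * z ^ k) (f z) := fun z => by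
    have := Complex.hasSum_taylorSeries_of_entire h.ss_diff 0 z
    refine (congrArg (fun g => HasSum g (f z)) (funext fun k => ?_)).mp this
    simp [ha]; ring
  have hb : ∀ (k : ℕ) (R : ℝ), 0 < R → ‖a k‖ * R ^ k ≤ (K + 1) * exp (R ^ 2 / 2) := by
    intro k R hR
    have := Complex.norm_iteratedDeriv_le_of_forall_mem_sphere_norm_le (c := 0) (f := f)
      (C := (K + 1) * exp (R ^ 2 / 2)) k hR h.ss_diff.diffContOnCl (fun z hz => by
        have hz' : ‖z‖ = R := by simpa using hz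
        have h3 : z.im ^ 2 ≤ R ^ 2 := by
          rw [← hz', ← sq_abs]
          exact pow_le_pow_left₀ (abs_nonneg _) (Complex.abs_im_le_norm z) 2
        have h4 : exp (z.im ^ 2 / 2) ≤ exp (R ^ 2 / 2) := Real.exp_le_exp.2 (by linarith)
        have h5 : 1 ≤ exp (R ^ 2 / 2) := Real.one_le_exp (by positivity)
        have h6 := norm_sub_le (ss μ z) 1
        have h7 := h.ss_norm z
        simp only [norm_one] at h6
        simp only [hf]
        nlinarith)
    rw [le_div_iff₀ (by positivity)] at this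
    have hk : (0 : ℝ) < k ! := by positivity
    simp only [ha, norm_mul, norm_inv, Complex.norm_natCast]
    rw [mul_assoc, inv_mul_le_iff₀ hk]
    exact this
  have hd : deriv f = fun z => (∫ x : ℝ, (x : ℂ) ^ 1 * Complex.exp (z * x) ∂μ)
      * Complex.exp (-(z ^ 2 / 2)) + (∫ x : ℝ, (x : ℂ) ^ 0 * Complex.exp (z * x) ∂μ)
        * (Complex.exp (-(z ^ 2 / 2)) * (-z)) := by
    ext z; exact (h.ss_deriv z).deriv
  have m1 : ∫ x : ℝ, (x : ℂ) ∂μ = 0 := by rw [integral_complex_ofReal, h1]; simp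
  have m2 : ∫ x : ℝ, (x : ℂ) ^ 2 ∂μ = 1 := by
    have := integral_complex_ofReal (μ := μ) (f := fun x => x ^ 2)
    push_cast at this
    rw [this, h2]; simp
  refine ⟨fun k => ‖a k‖ ^ 2 * k !, fun k => by positivity, ?_, ?_, ?_, fun q β hq0 hq1 hβ => ?_⟩
  · simp [ha, hf, ss, ee]
  · simp [ha, hd, m1]
  · have h3 := (((h.hasDerivAt 1 0).mul (hasDerivAt_E 0)).add ((h.hasDerivAt 0 0).mul
      ((hasDerivAt_E 0).mul (hasDerivAt_id (0 : ℂ)).neg))).deriv
    have h4 : iteratedDeriv 2 f 0 = 0 := by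
      rw [iteratedDeriv_succ, iteratedDeriv_one, hd]
      refine Eq.trans ?_ (h3.trans ?_)
      · rfl
      · simp [m1, m2]
    simp [ha, h4]
  · have := series (fun k => a k * q ^ k) (fun z => f (q * z)) (K + 1)
      (fun z => by
        convert hsum (q * z) using 2 with k
        rw [mul_pow]; ring)
      (fun k R hR => by
        have h3 := hb k R hR
        have h4 : q ^ k ≤ 1 := pow_le_one₀ hq0.le hq1
        rw [norm_mul, norm_pow, Complex.norm_real, Real.norm_of_nonneg hq0.le]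
        have h5 : 0 ≤ ‖a k‖ * R ^ k := by positivity
        nlinarith) hβ
    refine (congrArg (fun g => HasSum g (JJ μ q β)) (funext fun k => ?_)).mp this
    rw [norm_mul, norm_pow, Complex.norm_real, Real.norm_of_nonneg hq0.le]
    ring

end

lemma swapC {α : Type*} [MeasurableSpace α] [TopologicalSpace α] [OpensMeasurableSpace α]
    [SecondCountableTopology α] (ν : Measure α) [SFinite ν]
    (F : ℂ → α → ℂ) (hF : Continuous (Function.uncurry F)) (h1 : ∀ z, Integrable (F z) ν)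
    (g : ℂ → ℝ) (hg : Integrable g) (h2 : ∀ z, ∫ x, ‖F z x‖ ∂ν ≤ g z) :
    Integrable (fun z => ∫ x, F z x ∂ν) ∧ ∫ z, ∫ x, F z x ∂ν = ∫ x, (∫ z, F z x) ∂ν := by
  have hm : AEStronglyMeasurable (Function.uncurry F) ((volume : Measure ℂ).prod ν) :=
    hF.aestronglyMeasurable
  have hi : Integrable (Function.uncurry F) ((volume : Measure ℂ).prod ν) := by
    refine (integrable_prod_iff hm).2 ⟨Eventually.of_forall h1, ?_⟩
    refine hg.mono' hm.norm.integral_prod_right' (Eventually.of_forall fun z => ?_)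
    rw [Real.norm_of_nonneg (integral_nonneg fun _ => norm_nonneg _)]
    exact h2 z
  exact ⟨hi.integral_prod_left, integral_integral_swap hi⟩

lemma wt_int {β u : ℝ} (hu0 : 0 ≤ u) (hu : u < β) :
    Integrable (fun z : ℂ => exp (u * z.im ^ 2) * exp (-β * ‖z‖ ^ 2)) := by
  refine (plane_real_int (A := β) (s := β - u) (by linarith) (by linarith) 0).congr
    (Eventually.of_forall fun z => ?_)
  simp only
  rw [← Real.exp_add, Complex.sq_norm, Complex.normSq_apply]; congr 1; ring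

lemma wt_eq {β u : ℝ} (hu0 : 0 ≤ u) (hu : u < β) :
    ∫ z : ℂ, exp (u * z.im ^ 2) * exp (-β * ‖z‖ ^ 2) = √(π / β) * √(π / (β - u)) := by
  rw [← plane_real (A := β) (s := β - u) (by linarith) (by linarith)]
  congr 1; ext z
  rw [← Real.exp_add, Complex.sq_norm, Complex.normSq_apply]; congr 1; ring

theorem bil {K : ℝ} {μ ν : Measure ℝ} [IsProbabilityMeasure μ] [IsProbabilityMeasure ν]
    (hμ : HK K μ) (hν : HK K ν) {t : ℝ} (h0 : 0 < t) (h1 : t < 1) :
    Integrable (fun z : ℂ => ss μ z * conj (ss ν z) * (exp (-(1 / t) * ‖z‖ ^ 2) : ℝ)) ∧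
    ∫ z : ℂ, ss μ z * conj (ss ν z) * (exp (-(1 / t) * ‖z‖ ^ 2) : ℝ)
      = (π * t * ∫ p, meh t p.1 p.2 ∂(μ.prod ν) : ℝ) := by
  have hK := hμ.pos
  have ht : 1 < 1 / t := by rw [lt_div_iff₀ h0]; linarith
  have key := swapC (μ.prod ν)
    (fun z p => ee p.1 z * conj (ee p.2 z) * (exp (-(1 / t) * ‖z‖ ^ 2) : ℝ))
    (by unfold ee; fun_prop)
    (fun z => ((hμ.ee_int z).mul_prod
      (Complex.conjCLE.integrable_comp_iff.2 (hν.ee_int z))).mul_const _)
    _ ((wt_int zero_le_one ht).const_mul (K ^ 2)) (fun z => by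
      simp_rw [norm_mul, Complex.norm_conj]
      rw [integral_mul_const, integral_prod_mul (fun x => ‖ee x z‖) (fun x => ‖ee x z‖),
        Complex.norm_real, Real.norm_of_nonneg (exp_pos _).le, ← mul_assoc]
      refine mul_le_mul_of_nonneg_right ?_ (exp_pos _).le
      calc _ ≤ (K * exp (z.im ^ 2 / 2)) * (K * exp (z.im ^ 2 / 2)) :=
            mul_le_mul (hμ.ee_norm z) (hν.ee_norm z) (integral_nonneg fun _ => norm_nonneg _)
              (by positivity)
        _ = _ := by rw [mul_mul_mul_comm, ← Real.exp_add]; congr 1; ring; congr 1; ring)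
  have h2 : ∀ z : ℂ, ∫ p, ee p.1 z * conj (ee p.2 z) * (exp (-(1 / t) * ‖z‖ ^ 2) : ℝ) ∂(μ.prod ν)
      = ss μ z * conj (ss ν z) * (exp (-(1 / t) * ‖z‖ ^ 2) : ℝ) := by
    intro z
    rw [integral_mul_const, integral_prod_mul (fun x => ee x z) (fun x => conj (ee x z)),
      integral_conj]
    rfl
  simp_rw [h2, ee_ee h0 h1] at key
  refine ⟨key.1, key.2.trans ?_⟩
  rw [integral_complex_ofReal, integral_const_mul]

theorem tri {K : ℝ} {μ ν ρ : Measure ℝ} [IsProbabilityMeasure μ] [IsProbabilityMeasure ν]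
    [IsProbabilityMeasure ρ] (hμ : HK K μ) (hν : HK K ν) (hρ : HK K ρ) {q : ℝ} (hq : q ^ 2 ≤ 1) :
    Integrable (fun z : ℂ => ss μ (2 * z) * conj (ss ν (q * z) * ss ρ (q * z))
      * (exp (-4 * ‖z‖ ^ 2) : ℝ)) ∧
    ∫ z : ℂ, ss μ (2 * z) * conj (ss ν (q * z) * ss ρ (q * z)) * (exp (-4 * ‖z‖ ^ 2) : ℝ)
      = (π / 4 * ∫ p, kq q p.1 (p.2.1 + p.2.2) ∂(μ.prod (ν.prod ρ)) : ℝ) := by
  have hK := hμ.pos
  have key := swapC (μ.prod (ν.prod ρ))
    (fun z p => ee p.1 (2 * z) * conj (ee p.2.1 (q * z) * ee p.2.2 (q * z))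
      * (exp (-4 * ‖z‖ ^ 2) : ℝ))
    (by unfold ee; fun_prop)
    (fun z => ((hμ.ee_int _).mul_prod
      (Complex.conjCLE.integrable_comp_iff.2 ((hν.ee_int _).mul_prod (hρ.ee_int _)))).mul_const _)
    _ ((wt_int (u := 3) (β := 4) (by norm_num) (by norm_num)).const_mul (K ^ 3)) (fun z => by
      simp_rw [norm_mul, Complex.norm_conj, norm_mul]
      rw [integral_mul_const, integral_prod_mul (fun x => ‖ee x (2 * z)‖)
        (fun p : ℝ × ℝ => ‖ee p.1 (q * z)‖ * ‖ee p.2 (q * z)‖),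
        integral_prod_mul (fun x => ‖ee x (q * z)‖) (fun x => ‖ee x (q * z)‖),
        Complex.norm_real, Real.norm_of_nonneg (exp_pos _).le, ← mul_assoc (K ^ 3)]
      refine mul_le_mul_of_nonneg_right ?_ (exp_pos _).le
      have hn : ∀ (m : Measure ℝ) (w : ℂ), 0 ≤ ∫ x, ‖ee x w‖ ∂m :=
        fun m w => integral_nonneg fun _ => norm_nonneg _
      calc _ ≤ (K * exp ((2 * z).im ^ 2 / 2)) * ((K * exp ((q * z).im ^ 2 / 2))
            * (K * exp ((q * z).im ^ 2 / 2))) :=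
            mul_le_mul (hμ.ee_norm _) (mul_le_mul (hν.ee_norm _) (hρ.ee_norm _) (hn _ _)
              (by positivity)) (mul_nonneg (hn _ _) (hn _ _)) (by positivity)
        _ = K ^ 3 * exp ((2 + q ^ 2) * z.im ^ 2) := by
            have : (2 + q ^ 2) * z.im ^ 2
                = (2 * z).im ^ 2 / 2 + ((q * z).im ^ 2 / 2 + (q * z).im ^ 2 / 2) := by
              simp; ring
            rw [this, Real.exp_add, Real.exp_add]; ring
        _ ≤ _ := by
            refine mul_le_mul_of_nonneg_left (Real.exp_le_exp.2 ?_) (by positivity)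
            nlinarith [sq_nonneg z.im])
  have h2 : ∀ z : ℂ, ∫ p, ee p.1 (2 * z) * conj (ee p.2.1 (q * z) * ee p.2.2 (q * z))
      * (exp (-4 * ‖z‖ ^ 2) : ℝ) ∂(μ.prod (ν.prod ρ))
      = ss μ (2 * z) * conj (ss ν (q * z) * ss ρ (q * z)) * (exp (-4 * ‖z‖ ^ 2) : ℝ) := by
    intro z
    rw [integral_mul_const, integral_prod_mul (fun x => ee x (2 * z))
      (fun p : ℝ × ℝ => conj (ee p.1 (q * z) * ee p.2 (q * z))), integral_conj,
      integral_prod_mul (fun x => ee x (q * z)) (fun x => ee x (q * z))]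
    rfl
  simp_rw [h2, ee_tri hq] at key
  refine ⟨key.1, key.2.trans ?_⟩
  rw [integral_complex_ofReal, integral_const_mul]

end Pool.Agent.Lib.MP_cc278a_pr.SG
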