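import Mathlib

set_option autoImplicit false
open MeasureTheory ProbabilityTheory Real Set Filter Topology
open scoped NNReal ENNReal ComplexConjugate

namespace Pool.Agent.Lib.MP_cc278a_pr.SG

/-- Lebesgue Gaussian integral with a real quadratic and a complex linear coefficient. -/
lemma cint {A : ℝ} (hA : 0 < A) (B : ℂ) :
    ∫ z : ℝ, Complex.exp (-(A : ℂ) * z ^ 2 + B * z)
      = (√(π / A) : ℝ) * Complex.exp (B ^ 2 / (4 * A)) := by
  have h := integral_cexp_quadratic (b := -(A : ℂ)) (by simpa using hA) B 0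
  simp only [add_zero, neg_neg] at h
  rw [h]
  congr 1
  · rw [Real.sqrt_eq_rpow, Complex.ofReal_cpow (by positivity)]
    push_cast; rfl
  · congr 1
    have : (A : ℂ) ≠ 0 := by exact_mod_cast hA.ne'
    field_simp
    ring

lemma cint_int {A : ℝ} (hA : 0 < A) (B : ℂ) :
    Integrable (fun z : ℝ => Complex.exp (-(A : ℂ) * z ^ 2 + B * z)) := by
  have h := integrable_cexp_quadratic' (b := -(A : ℂ)) (by simpa using hA) B 0
  simpa using h

lemma rint {A : ℝ} (hA : 0 < A) (B : ℝ) :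
    ∫ z : ℝ, exp (-A * z ^ 2 + B * z) = √(π / A) * exp (B ^ 2 / (4 * A)) := by
  have h := cint hA B
  have h2 : ∀ z : ℝ, Complex.exp (-(A : ℂ) * z ^ 2 + B * z)
      = ((exp (-A * z ^ 2 + B * z) : ℝ) : ℂ) := fun z => by push_cast; rfl
  simp_rw [h2] at h
  rw [integral_complex_ofReal] at h
  apply Complex.ofReal_injective
  refine h.trans ?_
  push_cast; rfl

lemma rint_int {A : ℝ} (hA : 0 < A) (B : ℝ) :
    Integrable (fun z : ℝ => exp (-A * z ^ 2 + B * z)) := by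
  have h := (cint_int hA B).norm
  refine h.congr (Eventually.of_forall fun z => ?_)
  simp only [Complex.norm_exp]
  congr 1
  have : -(A : ℂ) * z ^ 2 + B * z = ((-A * z ^ 2 + B * z : ℝ) : ℂ) := by push_cast; rfl
  rw [this, Complex.ofReal_re]

/-- Centred Gaussian law of variance `v`. -/
noncomputable def gm (v : ℝ≥0) : Measure ℝ := gaussianReal 0 v

instance (v : ℝ≥0) : IsProbabilityMeasure (gm v) := by unfold gm; infer_instance

lemma gpdf (v : ℝ≥0) (A B z : ℝ) :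
    gaussianPDFReal 0 v z * exp (-A * z ^ 2 + B * z)
      = (√(2 * π * v))⁻¹ * exp (-(A + 1 / (2 * v)) * z ^ 2 + B * z) := by
  unfold gaussianPDFReal
  rw [mul_assoc, ← Real.exp_add]
  congr 2
  ring

lemma gint {v : ℝ≥0} (hv : v ≠ 0) {A : ℝ} (hA : 0 < 1 + 2 * A * v) (B : ℝ) :
    ∫ z, exp (-A * z ^ 2 + B * z) ∂(gm v)
      = (√(1 + 2 * A * v))⁻¹ * exp (B ^ 2 * v / (2 * (1 + 2 * A * v))) := by
  have hv' : (0 : ℝ) < v := by positivity
  have hA' : 0 < A + 1 / (2 * v) := by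
    have : A + 1 / (2 * v) = (1 + 2 * A * v) / (2 * v) := by field_simp; ring
    rw [this]; positivity
  unfold gm
  rw [integral_gaussianReal_eq_integral_smul hv]
  simp_rw [smul_eq_mul, gpdf]
  rw [integral_const_mul, rint hA', ← mul_assoc]
  congr 1
  · rw [← Real.sqrt_inv, ← Real.sqrt_inv, ← Real.sqrt_mul (by positivity)]
    congr 1
    field_simp
    ring
  · congr 1
    field_simp
    ring

lemma gint_int {v : ℝ≥0} (hv : v ≠ 0) {A : ℝ} (hA : 0 < 1 + 2 * A * v) (B : ℝ) :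
    Integrable (fun z => exp (-A * z ^ 2 + B * z)) (gm v) := by
  by_contra h
  have := gint hv hA B
  rw [integral_undef h] at this
  have h2 : 0 < (√(1 + 2 * A * v))⁻¹ * exp (B ^ 2 * v / (2 * (1 + 2 * A * v))) := by positivity
  linarith

/-- Density ratio of `N(q x, 2 - q^2)` to `N(0,2)` at `y`. -/
noncomputable def kq (q x y : ℝ) : ℝ :=
  √(2 / (2 - q ^ 2)) * exp (-(q ^ 2 / (2 * (2 - q ^ 2))) * x ^ 2 + q / (2 - q ^ 2) * x * y
    - q ^ 2 / (4 * (2 - q ^ 2)) * y ^ 2)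

lemma kq_pos {q : ℝ} (hq : q ^ 2 ≤ 1) (x y : ℝ) : 0 < kq q x y := by
  have : 0 < 2 - q ^ 2 := by linarith
  unfold kq; positivity

lemma continuous_kq (q : ℝ) : Continuous (fun p : ℝ × ℝ => kq q p.1 p.2) := by
  unfold kq; fun_prop

lemma kq_le {q : ℝ} (hq : q ^ 2 ≤ 1) (x y : ℝ) :
    kq q x y ≤ √(2 / (2 - q ^ 2)) * exp (-((q * y / 2) ^ 2 / 2)) * exp (q * y / 2 * x) := by
  have hs : 0 < 2 - q ^ 2 := by linarith
  unfold kq
  rw [mul_assoc (√_), ← Real.exp_add]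
  refine mul_le_mul_of_nonneg_left (Real.exp_le_exp.2 ?_) (by positivity)
  have : -(q ^ 2 / (2 * (2 - q ^ 2))) * x ^ 2 + q / (2 - q ^ 2) * x * y
      - q ^ 2 / (4 * (2 - q ^ 2)) * y ^ 2
      = -((q * y / 2) ^ 2 / 2) + q * y / 2 * x
        - q ^ 2 / (2 * (2 - q ^ 2)) * (x - q * y / 2) ^ 2 := by
    field_simp; ring
  rw [this]
  have : 0 ≤ q ^ 2 / (2 * (2 - q ^ 2)) * (x - q * y / 2) ^ 2 := by positivity
  linarith

/-- The kernel is a Gaussian in `y` of total mass one. -/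
lemma kq_mass {q : ℝ} (hq : q ^ 2 ≤ 1) (x : ℝ) :
    Integrable (kq q x) (gm 2) ∧ ∫ y, kq q x y ∂(gm 2) = 1 := by
  have hs : 0 < 2 - q ^ 2 := by linarith
  have hA : 0 < 1 + 2 * (q ^ 2 / (4 * (2 - q ^ 2))) * ((2 : ℝ≥0) : ℝ) := by positivity
  have he : kq q x = fun y => (√(2 / (2 - q ^ 2)) * exp (-(q ^ 2 / (2 * (2 - q ^ 2))) * x ^ 2))
      * exp (-(q ^ 2 / (4 * (2 - q ^ 2))) * y ^ 2 + q / (2 - q ^ 2) * x * y) := by
    ext y; unfold kq; rw [mul_assoc (√_), ← Real.exp_add]; congr 2; ring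
  rw [he]
  refine ⟨(gint_int two_ne_zero hA _).const_mul _, ?_⟩
  rw [integral_const_mul, gint two_ne_zero hA]
  have h1 : 1 + 2 * (q ^ 2 / (4 * (2 - q ^ 2))) * ((2 : ℝ≥0) : ℝ) = 2 / (2 - q ^ 2) := by
    push_cast; field_simp; ring
  rw [h1]
  have h2 : 0 < √(2 / (2 - q ^ 2)) := by positivity
  have h3 : -(q ^ 2 / (2 * (2 - q ^ 2))) * x ^ 2
      + (q / (2 - q ^ 2) * x) ^ 2 * ((2 : ℝ≥0) : ℝ) / (2 * (2 / (2 - q ^ 2))) = 0 := by
    push_cast; field_simp; ring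
  calc _ = (√(2 / (2 - q ^ 2)) * (√(2 / (2 - q ^ 2)))⁻¹) * exp (-(q ^ 2 / (2 * (2 - q ^ 2))) * x ^ 2
      + (q / (2 - q ^ 2) * x) ^ 2 * ((2 : ℝ≥0) : ℝ) / (2 * (2 / (2 - q ^ 2)))) := by
        rw [Real.exp_add]; ring
    _ = 1 := by rw [h3, mul_inv_cancel₀ h2.ne']; simp

/-- The kernel is a Gaussian in `x` of total mass one for the standard Gaussian. -/
lemma kq_mass' {q : ℝ} (hq : q ^ 2 ≤ 1) (y : ℝ) : ∫ x, kq q x y ∂(gm 1) = 1 := by
  have hs : 0 < 2 - q ^ 2 := by linarith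
  have hA : 0 < 1 + 2 * (q ^ 2 / (2 * (2 - q ^ 2))) * ((1 : ℝ≥0) : ℝ) := by positivity
  have he : (fun x => kq q x y)
      = fun x => (√(2 / (2 - q ^ 2)) * exp (-(q ^ 2 / (4 * (2 - q ^ 2))) * y ^ 2))
      * exp (-(q ^ 2 / (2 * (2 - q ^ 2))) * x ^ 2 + q / (2 - q ^ 2) * y * x) := by
    ext x; unfold kq; rw [mul_assoc (√_), ← Real.exp_add]; congr 2; ring
  rw [he, integral_const_mul, gint one_ne_zero hA]
  have h1 : 1 + 2 * (q ^ 2 / (2 * (2 - q ^ 2))) * ((1 : ℝ≥0) : ℝ) = 2 / (2 - q ^ 2) := by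
    push_cast; field_simp; ring
  rw [h1]
  have h2 : 0 < √(2 / (2 - q ^ 2)) := by positivity
  have h3 : -(q ^ 2 / (4 * (2 - q ^ 2))) * y ^ 2
      + (q / (2 - q ^ 2) * y) ^ 2 * ((1 : ℝ≥0) : ℝ) / (2 * (2 / (2 - q ^ 2))) = 0 := by
    push_cast; field_simp; ring
  calc _ = (√(2 / (2 - q ^ 2)) * (√(2 / (2 - q ^ 2)))⁻¹) * exp (-(q ^ 2 / (4 * (2 - q ^ 2))) * y ^ 2
      + (q / (2 - q ^ 2) * y) ^ 2 * ((1 : ℝ≥0) : ℝ) / (2 * (2 / (2 - q ^ 2)))) := by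
        rw [Real.exp_add]; ring
    _ = 1 := by rw [h3, mul_inv_cancel₀ h2.ne']; simp

/-- The product formula. -/
lemma kq_prod {q : ℝ} (hq : q ^ 2 ≤ 1) (x a b : ℝ) :
    Integrable (fun z => kq q a (x + z) * kq q b (x - z)) (gm 1) ∧
    ∫ z, kq q a (x + z) * kq q b (x - z) ∂(gm 1) = kq q x (a + b) := by
  have hs : 0 < 2 - q ^ 2 := by linarith
  have hA : 0 < 1 + 2 * (q ^ 2 / (2 * (2 - q ^ 2))) * ((1 : ℝ≥0) : ℝ) := by positivity
  have he : (fun z => kq q a (x + z) * kq q b (x - z))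
      = fun z => (√(2 / (2 - q ^ 2)) * √(2 / (2 - q ^ 2))
        * exp (-(q ^ 2 / (2 * (2 - q ^ 2))) * (a ^ 2 + b ^ 2 + x ^ 2)
          + q / (2 - q ^ 2) * x * (a + b)))
      * exp (-(q ^ 2 / (2 * (2 - q ^ 2))) * z ^ 2 + q / (2 - q ^ 2) * (a - b) * z) := by
    ext z; unfold kq
    rw [mul_mul_mul_comm, ← Real.exp_add, mul_assoc (√_ * √_), ← Real.exp_add]
    congr 2
    field_simp; ring
  rw [he]
  refine ⟨(gint_int one_ne_zero hA _).const_mul _, ?_⟩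
  rw [integral_const_mul, gint one_ne_zero hA]
  have h1 : 1 + 2 * (q ^ 2 / (2 * (2 - q ^ 2))) * ((1 : ℝ≥0) : ℝ) = 2 / (2 - q ^ 2) := by
    push_cast; field_simp; ring
  rw [h1]
  have h2 : 0 < √(2 / (2 - q ^ 2)) := by positivity
  unfold kq
  rw [mul_mul_mul_comm, ← Real.exp_add, mul_inv_cancel_right₀ h2.ne']
  congr 2
  push_cast; field_simp; ring

/-- Mehler kernel. -/
noncomputable def meh (t x y : ℝ) : ℝ :=
  (√(1 - t ^ 2))⁻¹ * exp ((2 * t * x * y - t ^ 2 * (x ^ 2 + y ^ 2)) / (2 * (1 - t ^ 2)))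

lemma kq_kq {q p : ℝ} (hq : q ^ 2 ≤ 1) (hp : p ^ 2 ≤ 1) (a b : ℝ) :
    Integrable (fun y => kq q a y * kq p b y) (gm 2) ∧
    ∫ y, kq q a y * kq p b y ∂(gm 2) = meh (q * p / 2) a b := by
  have hs : 0 < 2 - q ^ 2 := by linarith
  have hs' : 0 < 2 - p ^ 2 := by linarith
  have hqp : 0 < 4 - q ^ 2 * p ^ 2 := by nlinarith [sq_nonneg q, sq_nonneg p]
  have hA : 0 < 1 + 2 * (q ^ 2 / (4 * (2 - q ^ 2)) + p ^ 2 / (4 * (2 - p ^ 2)))
      * ((2 : ℝ≥0) : ℝ) := by positivity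
  have he : (fun y => kq q a y * kq p b y)
      = fun y => (√(2 / (2 - q ^ 2)) * √(2 / (2 - p ^ 2))
        * exp (-(q ^ 2 / (2 * (2 - q ^ 2))) * a ^ 2 - (p ^ 2 / (2 * (2 - p ^ 2))) * b ^ 2))
      * exp (-(q ^ 2 / (4 * (2 - q ^ 2)) + p ^ 2 / (4 * (2 - p ^ 2))) * y ^ 2
        + (q / (2 - q ^ 2) * a + p / (2 - p ^ 2) * b) * y) := by
    ext y; unfold kq
    rw [mul_mul_mul_comm, ← Real.exp_add, mul_assoc (√_ * √_), ← Real.exp_add]
    congr 2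
    ring
  rw [he]
  refine ⟨(gint_int two_ne_zero hA _).const_mul _, ?_⟩
  rw [integral_const_mul, gint two_ne_zero hA]
  have h1 : 1 + 2 * (q ^ 2 / (4 * (2 - q ^ 2)) + p ^ 2 / (4 * (2 - p ^ 2))) * ((2 : ℝ≥0) : ℝ)
      = (4 - q ^ 2 * p ^ 2) / ((2 - q ^ 2) * (2 - p ^ 2)) := by
    push_cast; field_simp; ring
  rw [h1]
  unfold meh
  have h4 : 1 - (q * p / 2) ^ 2 = (4 - q ^ 2 * p ^ 2) / 4 := by ring
  rw [mul_mul_mul_comm, ← Real.exp_add, h4]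
  congr 1
  · rw [← Real.sqrt_inv, ← Real.sqrt_inv, ← Real.sqrt_mul (by positivity),
      ← Real.sqrt_mul (by positivity)]
    congr 1
    field_simp; ring
  · congr 1
    push_cast; field_simp; ring

end Pool.Agent.Lib.MP_cc278a_pr.SG
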