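import Pool.Agent.Lib.MP_cc278a_pr.SG.Core

set_option autoImplicit false
open MeasureTheory ProbabilityTheory Real Set Filter Topology
open scoped NNReal ENNReal

namespace Pool.Agent.Lib.MP_cc278a_pr.SG

lemma gibbs2 (ρ : Measure ℝ) [IsProbabilityMeasure ρ] (hac : ρ ≪ volume)
    (hint : Integrable (fun x : ℝ => Real.negMulLog ((ρ.rnDeriv volume x).toReal))) (M : ℝ)
    {V : ℝ≥0} (hV : V ≠ 0) (v t : ℝ → ℝ) (hvt : ∀ y, exp (v y) ≤ t y) (hv : Integrable v ρ)
    (h2 : Integrable (fun y => (y - M) ^ 2 / (2 * V)) ρ) (ht : Integrable t (gaussianReal M V)) :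
    ∫ x : ℝ, Real.negMulLog ((ρ.rnDeriv volume x).toReal)
      ≤ -log (kap V) + ∫ y, (y - M) ^ 2 / (2 * V) ∂ρ - ∫ y, v y ∂ρ
        + (∫ y, t y ∂(gaussianReal M V) - 1) := by
  have hV' : (0 : ℝ) < V := by positivity
  have hqi : Integrable (fun y => gaussianPDFReal M V y * t y) := by
    rw [gaussianReal_of_var_ne_zero _ hV,
      integrable_withDensity_iff_integrable_smul' (by fun_prop)
        (Eventually.of_forall fun x => gaussianPDF_lt_top)] at ht
    simpa using ht
  have hqI : ∫ y, gaussianPDFReal M V y * t y = ∫ y, t y ∂(gaussianReal M V) :=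
    (integral_gaussianReal_eq_integral_smul hV).symm
  have hψ0 : Integrable (fun y => -log (kap V) + (y - M) ^ 2 / (2 * V)) ρ :=
    (integrable_const _).add h2
  have hψ : Integrable (fun y => -log (kap V) + (y - M) ^ 2 / (2 * V) - v y) ρ := hψ0.sub hv
  have hwψ := (integrable_toReal_rnDeriv_mul_iff hac).2 hψ
  have hw : Integrable (fun x => (ρ.rnDeriv volume x).toReal) := Measure.integrable_toReal_rnDeriv
  have hw1 : ∫ x, (ρ.rnDeriv volume x).toReal = 1 := by
    rw [Measure.integral_toReal_rnDeriv hac]; simp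
  have hsub : Integrable (fun y => gaussianPDFReal M V y * t y - (ρ.rnDeriv volume y).toReal) :=
    hqi.sub hw
  calc ∫ x : ℝ, Real.negMulLog ((ρ.rnDeriv volume x).toReal)
      ≤ ∫ y : ℝ, ((ρ.rnDeriv volume y).toReal * (-log (kap V) + (y - M) ^ 2 / (2 * V) - v y)
          + (gaussianPDFReal M V y * t y - (ρ.rnDeriv volume y).toReal)) := by
        refine integral_mono hint (hwψ.add hsub) fun y => ?_
        simp only
        have hp := gaussianPDFReal_pos M V y hV
        have hlog : -log (kap V) + (y - M) ^ 2 / (2 * V) - v y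
            = -log (gaussianPDFReal M V y * exp (v y)) := by
          rw [Real.log_mul hp.ne' (exp_pos _).ne', Real.log_exp, gaussianPDFReal_eq,
            Real.log_mul (kap_pos hV').ne' (gw_pos _ _).ne']
          unfold gw; rw [Real.log_exp]; ring
        rw [hlog]
        have hq := mul_pos hp (exp_pos (v y))
        have hq2 := mul_le_mul_of_nonneg_left (hvt y) hp.le
        generalize gaussianPDFReal M V y * exp (v y) = q at hq hq2
        have hw0 : 0 ≤ (ρ.rnDeriv volume y).toReal := ENNReal.toReal_nonneg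
        generalize (ρ.rnDeriv volume y).toReal = w at hw0
        rcases hw0.eq_or_lt with h | h
        · subst h; simp [hq.le.trans hq2]
        · unfold Real.negMulLog
          have h3 := Real.log_le_sub_one_of_pos (div_pos hq h)
          rw [Real.log_div hq.ne' h.ne'] at h3
          have h4 := mul_le_mul_of_nonneg_left h3 h.le
          have h5 : w * (q / w - 1) = q - w := by field_simp
          nlinarith
    _ = _ := by
        rw [integral_add hwψ hsub, integral_sub hqi hw, hqI, hw1,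
          integral_toReal_rnDeriv_mul hac, integral_sub hψ0 hv,
          integral_add (integrable_const _) h2]
        simp

lemma sq_two {μ ρ : Measure ℝ} [IsProbabilityMeasure μ] [IsProbabilityMeasure ρ]
    (h2 : MemLp id 2 μ) (h3 : MemLp id 2 ρ) (m1 : ∫ x, x ∂μ = 0) (m2 : ∫ x, x ^ 2 ∂μ = 1)
    (m3 : ∫ x, x ^ 2 ∂ρ = 1) : ∫ p, (p.1 + p.2) ^ 2 ∂(μ.prod ρ) = 2 := by
  have i1 : Integrable (fun x : ℝ => x) μ := h2.integrable one_le_two
  have i2 : Integrable (fun x : ℝ => x ^ 2) μ := by simpa using h2.integrable_sq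
  have i3 : Integrable (fun x : ℝ => x ^ 2) ρ := by simpa using h3.integrable_sq
  rw [integral_prod_symm _ (sq_int h2 h3)]
  have : ∀ y : ℝ, ∫ x, (x + y) ^ 2 ∂μ = 1 + y ^ 2 := fun y => by
    have e : (fun x : ℝ => (x + y) ^ 2) = fun x => (x ^ 2 + 2 * y * x) + y ^ 2 := by ext; ring
    have s := integral_add (i2.add (i1.const_mul (2 * y))) (integrable_const (y ^ 2))
    simp only [Pi.add_apply] at s
    rw [e, s, integral_add i2 (i1.const_mul _), integral_const_mul, m1, m2]
    simp
  simp only [this]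
  rw [integral_add (integrable_const _) i3, m3]
  simp; norm_num

lemma gm_sq : ∫ x, x ^ 2 ∂(gm 1) = 1 := by
  have := variance_fun_id_gaussianReal (μ := 0) (v := 1)
  rw [variance_eq_integral measurable_id'.aemeasurable] at this
  simpa [gm] using this

lemma gauss_scale (M : ℝ) {v : ℝ≥0} (hv : v ≠ 0) (n : ℝ≥0) :
    MeasurePreserving (fun y => (y - M) / √v) (gaussianReal M (n * v)) (gm n) := by
  have hv' : (0 : ℝ) < v := by positivity
  refine ⟨by fun_prop, ?_⟩
  have : (fun y : ℝ => (y - M) / √v) = (· / √v) ∘ (· - M) := rfl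
  rw [this, ← Measure.map_map (by fun_prop) (by fun_prop), gaussianReal_map_sub_const,
    gaussianReal_map_div_const]
  unfold gm
  congr 1
  · simp
  · ext; simp [Real.sq_sqrt hv'.le, hv'.ne']

theorem main_law (ν : Measure ℝ) [IsProbabilityMeasure ν] (h2 : MemLp id 2 ν) (m : ℝ)
    (hm : ∫ x, x ∂ν = m) {v : ℝ≥0} (hv : v ≠ 0) (hvar : ∫ x, (x - m) ^ 2 ∂ν = v)
    (hH : ∀ l : ℝ, Integrable (fun x => exp (l * (x - m))) ν ∧
      ∫ x, exp (l * (x - m)) ∂ν ≤ 7 / 6 * exp (l ^ 2 * v / 2)) (m' : ℝ) (hac : ν ∗ ν ≪ volume)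
    (hint : Integrable (fun x : ℝ => Real.negMulLog (((ν ∗ ν).rnDeriv volume x).toReal))) :
    ∫ x : ℝ, Real.negMulLog (((ν ∗ ν).rnDeriv volume x).toReal)
      ≤ ∫ x : ℝ, Real.negMulLog (((ν ∗ gaussianReal m' v).rnDeriv volume x).toReal) := by
  have hv' : (0 : ℝ) < v := by positivity
  have hs : 0 < √(v : ℝ) := by positivity
  have hss : √(v : ℝ) ^ 2 = v := Real.sq_sqrt hv'.le
  set φ : ℝ → ℝ := fun x => (x - m) / √v with hφ
  have hφm : Measurable φ := by rw [hφ]; fun_prop
  set μ := ν.map φ with hμ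
  have : IsProbabilityMeasure μ := Measure.isProbabilityMeasure_map hφm.aemeasurable
  have mp : MeasurePreserving φ ν μ := ⟨hφm, rfl⟩
  have tr : ∀ f : ℝ → ℝ, Measurable f → ∫ x, f x ∂μ = ∫ x, f (φ x) ∂ν := fun f hf =>
    integral_map hφm.aemeasurable hf.aestronglyMeasurable
  have l2 : MemLp id 2 μ := by
    rw [hμ, memLp_map_measure_iff (by fun_prop) hφm.aemeasurable]
    have := (h2.sub (memLp_const m)).mul_const (√(v : ℝ))⁻¹
    exact this
  have m1 : ∫ x, x ∂μ = 0 := by
    rw [tr _ measurable_id']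
    simp only [hφ]
    have i1 : Integrable (fun x : ℝ => x) ν := h2.integrable one_le_two
    rw [integral_div, integral_sub i1 (integrable_const _)]
    simp [hm]
  have m2 : ∫ x, x ^ 2 ∂μ = 1 := by
    rw [tr _ (by fun_prop)]
    simp only [hφ, div_pow, hss]
    rw [integral_div, hvar, div_self hv'.ne']
  have e1 : ∀ l x : ℝ, l * φ x = l / √v * (x - m) := fun l x => by simp only [hφ]; ring
  have hk : HK (7 / 6) μ := by
    refine ⟨fun l => ?_, fun l => ?_⟩
    · rw [hμ, integrable_map_measure (by fun_prop) hφm.aemeasurable]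
      refine (hH (l / √v)).1.congr (Eventually.of_forall fun x => ?_)
      simp only [Function.comp, e1]
    · rw [tr _ (by fun_prop)]
      simp only [e1]
      refine (hH (l / √v)).2.trans_eq ?_
      rw [div_pow, hss, div_mul_cancel₀ _ hv'.ne']
  have mpa : MeasurePreserving (fun p : ℝ × ℝ => p.1 + p.2) (ν.prod ν) (ν ∗ ν) :=
    ⟨by fun_prop, rfl⟩
  have e2 : ∀ p : ℝ × ℝ, (p.1 + p.2 - 2 * m) / √v = (Prod.map φ φ p).1 + (Prod.map φ φ p).2 :=
    fun p => by simp only [hφ, Prod.map_fst, Prod.map_snd]; ring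
  have trW : ∀ f : ℝ → ℝ, Measurable f →
      (Integrable (fun p : ℝ × ℝ => f (p.1 + p.2)) (μ.prod μ) →
        Integrable (fun y => f ((y - 2 * m) / √v)) (ν ∗ ν)) ∧
      ∫ y, f ((y - 2 * m) / √v) ∂(ν ∗ ν) = ∫ p, f (p.1 + p.2) ∂(μ.prod μ) := fun f hf => by
    have a1 : Measurable fun y => f ((y - 2 * m) / √v) := by fun_prop
    have a2 : Measurable fun p : ℝ × ℝ => f (p.1 + p.2) := by fun_prop
    refine ⟨fun hi => ?_, ?_⟩
    · rw [← mpa.integrable_comp a1.aestronglyMeasurable]
      refine ((mp.prod mp).integrable_comp_of_integrable hi).congr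
        (Eventually.of_forall fun p => ?_)
      simp only [Function.comp, e2]
    · rw [← mpa.map_eq, ← (mp.prod mp).map_eq,
        integral_map mpa.measurable.aemeasurable a1.aestronglyMeasurable,
        integral_map (mp.prod mp).measurable.aemeasurable a2.aestronglyMeasurable]
      simp only [e2]
  have st : ST (7 / 6) μ (-log (kap ((2 * v : ℝ≥0) : ℝ)) + 1 / 2
      - ∫ x : ℝ, Real.negMulLog (((ν ∗ ν).rnDeriv volume x).toReal)) := by
    refine ⟨hk, l2, m1, m2, fun f t hf ht hft i1 i2 => ?_⟩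
    have g2 := gauss_scale (2 * m) hv 2
    have e3 : ∀ y : ℝ, (y - 2 * m) ^ 2 / (2 * ((2 * v : ℝ≥0) : ℝ))
        = ((y - 2 * m) / √v) ^ 2 / 4 := fun y => by
      rw [div_pow, hss]; push_cast; field_simp; ring
    obtain ⟨b1, b2⟩ := trW (fun y => y ^ 2 / 4) (by fun_prop)
    have k := gibbs2 (ν ∗ ν) hac hint (2 * m) (V := 2 * v) (mul_ne_zero two_ne_zero hv)
      (fun y => f ((y - 2 * m) / √v)) (fun y => t ((y - 2 * m) / √v)) (fun y => hft _)
      ((trW f hf).1 i1) (by simp only [e3]; exact b1 ((sq_int l2 l2).div_const 4))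
      (g2.integrable_comp_of_integrable i2)
    simp only [e3] at k
    rw [b2, (trW f hf).2, integral_div, sq_two l2 l2 m1 m2 m2,
      ← integral_map g2.measurable.aemeasurable ht.aestronglyMeasurable, g2.map_eq] at k
    linarith
  have core := st.core
  have l3 : MemLp id 2 (gm 1) := memLp_id_gaussianReal 2
  unfold DD at core
  simp only [log_rq l2] at core
  have s1 := integral_add ((integrable_const (log √2)).add ((sq_int l2 l3).div_const 4))
    (L0_int one_pos l2 l3)
  simp only [Pi.add_apply] at s1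
  rw [s1, integral_add (integrable_const _) ((sq_int l2 l3).div_const 4), integral_div,
    sq_two l2 l3 m1 m2 gm_sq] at core
  simp only [integral_const, probReal_univ, smul_eq_mul, one_mul] at core
  have g1 := gauss_scale 0 hv 1
  rw [one_mul] at g1
  have hL := continuous_L0 (μ := μ) one_pos l2
  have e4 : ∫ p, L0 μ 1 (p.1 + p.2) ∂(μ.prod (gm 1))
      = ∫ t, ∫ x, L0 ν v (t + x) ∂ν ∂(gaussianReal 0 v) := by
    have c : ∫ t, ∫ x, L0 ν v (t + x) ∂ν ∂(gaussianReal 0 v)
        = ∫ t, ∫ x, L0 ν v ((x, t).1 + (x, t).2) ∂ν ∂(gaussianReal 0 v) := by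
      simp only [add_comm]
    rw [c, ← (mp.prod g1).map_eq, integral_map (mp.prod g1).measurable.aemeasurable (by fun_prop),
      ← integral_prod_symm _ (L0_int hv' h2 (memLp_id_gaussianReal 2))]
    congr 1; ext p
    unfold L0 bm
    rw [tr _ (by fun_prop)]
    congr 2; ext x
    simp only [pow_zero, one_mul, gw, hφ, Prod.map_fst, Prod.map_snd]
    congr 1
    rw [show (x - m) / √v - ((p.1 - m) / √v + (p.2 - 0) / √v) = (x - (p.1 + p.2)) / √v by ring,
      div_pow, hss]
    field_simp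
  have e5 : log (kap ((2 * v : ℝ≥0) : ℝ)) = log (kap v) - log √2 := by
    unfold kap
    push_cast
    rw [show 2 * π * (2 * (v : ℝ)) = 2 * (2 * π * v) by ring, Real.sqrt_mul zero_le_two, mul_inv,
      Real.log_mul (by positivity) (by positivity), Real.log_inv]
    ring
  rw [entropy_conv_gauss hv h2 m', ← e4]
  linarith

theorem subgaussian (Ω : Type) [MeasurableSpace Ω] (P : Measure Ω) [IsProbabilityMeasure P]
    (X₁ X₂ G : Ω → ℝ) (h1 : Measurable X₁) (h2 : Measurable X₂) (hG : Measurable G)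
    (hL : MemLp X₁ 2 P) (hid : IdentDistrib X₁ X₂ P P) (hi12 : IndepFun X₁ X₂ P)
    (hi1G : IndepFun X₁ G P)
    (hg : ∃ m : ℝ, P.map G = gaussianReal m (variance X₁ P).toNNReal)
    (hs : ∀ l : ℝ, Integrable (fun ω => exp (l * (X₁ ω - ∫ ω', X₁ ω' ∂P))) P ∧
      ∫ ω, exp (l * (X₁ ω - ∫ ω', X₁ ω' ∂P)) ∂P ≤ 7 / 6 * exp (l ^ 2 * variance X₁ P / 2))
    (hac : P.map (X₁ + X₂) ≪ (volume : Measure ℝ))
    (hint : Integrable
      (fun x : ℝ => Real.negMulLog (((P.map (X₁ + X₂)).rnDeriv volume x).toReal))) :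
    ∫ x : ℝ, Real.negMulLog (((P.map (X₁ + X₂)).rnDeriv volume x).toReal)
      ≤ ∫ x : ℝ, Real.negMulLog (((P.map (X₁ + G)).rnDeriv volume x).toReal) := by
  obtain ⟨m, hm⟩ := hg
  have : IsProbabilityMeasure (P.map X₁) := Measure.isProbabilityMeasure_map h1.aemeasurable
  have hL' : MemLp id 2 (P.map X₁) := by
    rw [memLp_map_measure_iff (by fun_prop) h1.aemeasurable]; exact hL
  rw [hi12.map_add_eq_map_conv_map h1 h2, ← hid.map_eq] at hac hint ⊢
  rw [hi1G.map_add_eq_map_conv_map h1 hG, hm]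
  have hc := Real.coe_toNNReal _ (variance_nonneg X₁ P)
  refine main_law _ hL' (∫ ω', X₁ ω' ∂P) (integral_map h1.aemeasurable (by fun_prop)) ?_ ?_
    (fun l => ?_) m hac hint
  · intro h
    have h0 : variance X₁ P = 0 := by rw [← hc, h]; rfl
    have h3 := ae_eq_integral_of_variance_eq_zero hL h0
    have h4 : P.map X₁ = Measure.dirac (∫ ω', X₁ ω' ∂P) := by
      rw [Measure.map_congr h3]; simp
    rw [h4, Measure.dirac_conv_dirac] at hac
    have := hac (measure_singleton (∫ ω', X₁ ω' ∂P + ∫ ω', X₁ ω' ∂P))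
    simp at this
  · rw [hc, variance_eq_integral h1.aemeasurable, integral_map h1.aemeasurable (by fun_prop)]
  · rw [hc, integrable_map_measure (by fun_prop) h1.aemeasurable,
      integral_map h1.aemeasurable (by fun_prop)]
    exact hs l

end Pool.Agent.Lib.MP_cc278a_pr.SG
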