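import Pool.Agent.Lib.MP_cc278a_pr.Pot

set_option autoImplicit false
open MeasureTheory ProbabilityTheory

namespace Pool.Agent.Results.MP_cc278a_pr.LightTails

theorem result :
    ∀ (Ω : Type) [MeasurableSpace Ω] (P : Measure Ω) [IsProbabilityMeasure P]
      (X₁ X₂ G : Ω → ℝ),
      Measurable X₁ → Measurable X₂ → Measurable G →
      MemLp X₁ 2 P →
      IdentDistrib X₁ X₂ P P →
      IndepFun X₁ X₂ P →
      IndepFun X₁ G P →
      (∃ m : ℝ, P.map G = gaussianReal m (variance X₁ P).toNNReal) →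
      ∀ (I : Set ℝ) (V : ℝ → ℝ), IsOpen I → (∀ x ∈ I, -x ∈ I) → (∀ x, V (-x) = V x) →
      ConvexOn ℝ I V → DifferentiableOn ℝ V I → ConvexOn ℝ (I ∩ Set.Ici 0) (deriv V) →
      P.map X₁ = ((volume : Measure ℝ).restrict I).withDensity
        (fun x => ENNReal.ofReal (Real.exp (-V x))) →
      Integrable (fun x : ℝ => Real.negMulLog (((P.map (X₁ + X₂)).rnDeriv volume x).toReal)) →
      ∫ x : ℝ, Real.negMulLog (((P.map (X₁ + X₂)).rnDeriv volume x).toReal)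
        ≤ ∫ x : ℝ, Real.negMulLog (((P.map (X₁ + G)).rnDeriv volume x).toReal) := by
  intro Ω _ P _ X₁ X₂ G h1 h2 hG hL hid hi12 hi1G hg I V hI hsym hVe hVc hVd hV' hlaw hint
  rw [Lib.MP_cc278a_pr.dm_pd V hI] at hlaw
  refine Lib.MP_cc278a_pr.of_law Ω P X₁ X₂ G h1 h2 hG hL hid hi12 hi1G hg hint _ hlaw ?_
  intro _ hm v hv hvar
  exact ⟨0, Lib.MP_cc278a_pr.sym_pot hI hsym hVe hVd hVc 1 (Or.inl rfl) (by simpa using hV')
    hm v hv hvar⟩

end Pool.Agent.Results.MP_cc278a_pr.LightTails
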