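import Pool.Agent.Lib.MP_cc278a_pr.SG.Gauss

set_option autoImplicit false
open MeasureTheory ProbabilityTheory Real Set Filter Topology
open scoped NNReal ENNReal ComplexConjugate

namespace Pool.Agent.Lib.MP_cc278a_pr.SG

lemma intC {E : Type*} [NormedAddCommGroup E] [NormedSpace ℝ E] (F : ℂ → E) :
    ∫ z, F z = ∫ p : ℝ × ℝ, F ⟨p.1, p.2⟩ ∂((volume : Measure ℝ).prod volume) := by
  rw [← (Complex.volume_preserving_equiv_real_prod.symm).integral_comp
    Complex.measurableEquivRealProd.symm.measurableEmbedding]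
  rfl

lemma intC_int {E : Type*} [NormedAddCommGroup E] (F : ℂ → E) :
    Integrable F ↔ Integrable (fun p : ℝ × ℝ => F ⟨p.1, p.2⟩) ((volume : Measure ℝ).prod volume) := by
  rw [← (Complex.volume_preserving_equiv_real_prod.symm).integrable_comp_emb
    Complex.measurableEquivRealProd.symm.measurableEmbedding]
  rfl

lemma plane_real_int {A s : ℝ} (hA : 0 < A) (hs : 0 < s) (u : ℝ) :
    Integrable (fun z : ℂ => exp (-A * z.re ^ 2 - s * z.im ^ 2 + u * z.re)) := by
  rw [intC_int]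
  refine ((rint_int hA u).mul_prod (rint_int hs 0)).congr (Eventually.of_forall fun p => ?_)
  simp only
  rw [← Real.exp_add]; congr 1; ring

lemma plane_real {A s : ℝ} (hA : 0 < A) (hs : 0 < s) :
    ∫ z : ℂ, exp (-A * z.re ^ 2 - s * z.im ^ 2) = √(π / A) * √(π / s) := by
  rw [intC]
  have := integral_prod_mul (μ := (volume : Measure ℝ)) (ν := (volume : Measure ℝ))
    (fun z : ℝ => exp (-A * z ^ 2 + 0 * z)) (fun z : ℝ => exp (-s * z ^ 2 + 0 * z))
  rw [rint hA, rint hs] at this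
  simp only [ne_eq, OfNat.ofNat_ne_zero, not_false_eq_true, zero_pow, zero_div, Real.exp_zero,
    mul_one] at this
  rw [← this]
  congr 1; ext p
  rw [← Real.exp_add]; congr 1; ring

lemma plane {A s : ℝ} (hA : 0 < A) (hs : 0 < s) (c u w : ℝ) :
    ∫ z : ℂ, Complex.exp (((-A * z.re ^ 2 - s * z.im ^ 2 + u * z.re : ℝ) : ℂ)
        + ((c * z.re * z.im + w * z.im : ℝ) : ℂ) * Complex.I)
      = ((√(π / s) * √(π / (A + c ^ 2 / (4 * s)))
        * exp ((u - c * w / (2 * s)) ^ 2 / (4 * (A + c ^ 2 / (4 * s))) - w ^ 2 / (4 * s)) : ℝ) : ℂ) := by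
  have hi : Integrable (fun z : ℂ => Complex.exp
      (((-A * z.re ^ 2 - s * z.im ^ 2 + u * z.re : ℝ) : ℂ)
        + ((c * z.re * z.im + w * z.im : ℝ) : ℂ) * Complex.I)) := by
    refine (plane_real_int hA hs u).mono' (by fun_prop) (Eventually.of_forall fun z => ?_)
    rw [Complex.norm_exp]
    simp only [Complex.add_re, Complex.ofReal_re, Complex.mul_re, Complex.I_re, mul_zero,
      Complex.ofReal_im, Complex.I_im, mul_one, sub_self, add_zero, le_refl]
  rw [intC, integral_prod _ ((intC_int _).1 hi)]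
  have hA' : 0 < A + c ^ 2 / (4 * s) := by positivity
  have hs' : (s : ℂ) ≠ 0 := by exact_mod_cast hs.ne'
  have h1 : ∀ a : ℝ, ∫ b : ℝ, Complex.exp (((-A * a ^ 2 - s * b ^ 2 + u * a : ℝ) : ℂ)
        + ((c * a * b + w * b : ℝ) : ℂ) * Complex.I)
      = ((√(π / s) * exp (-(w ^ 2 / (4 * s))) : ℝ) : ℂ)
        * ((exp (-(A + c ^ 2 / (4 * s)) * a ^ 2 + (u - c * w / (2 * s)) * a) : ℝ) : ℂ) := by
    intro a
    have h2 : ∀ b : ℝ, Complex.exp (((-A * a ^ 2 - s * b ^ 2 + u * a : ℝ) : ℂ)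
        + ((c * a * b + w * b : ℝ) : ℂ) * Complex.I)
        = Complex.exp ((-A * a ^ 2 + u * a : ℝ) : ℂ)
          * Complex.exp (-(s : ℂ) * b ^ 2 + (((c * a + w : ℝ) : ℂ) * Complex.I) * b) := by
      intro b
      rw [← Complex.exp_add]; congr 1; push_cast; ring
    simp_rw [h2]
    rw [integral_const_mul, cint hs]
    push_cast
    rw [mul_left_comm, mul_assoc, ← Complex.exp_add, ← Complex.exp_add]
    congr 2
    rw [mul_pow, Complex.I_sq]
    field_simp; ring
  simp_rw [h1]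
  rw [integral_const_mul, integral_complex_ofReal, rint hA', ← Complex.ofReal_mul]
  congr 1
  rw [sub_eq_add_neg (_ / (4 * (A + c ^ 2 / (4 * s)))), Real.exp_add]
  ring

/-- Normalised exponential. -/
noncomputable def ee (x : ℝ) (z : ℂ) : ℂ := Complex.exp (z * x - z ^ 2 / 2)

lemma continuous_ee : Continuous (fun p : ℝ × ℂ => ee p.1 p.2) := by unfold ee; fun_prop

lemma norm_ee (x : ℝ) (z : ℂ) :
    ‖ee x z‖ = exp (z.re * x) * exp (-(z.re ^ 2 / 2)) * exp (z.im ^ 2 / 2) := by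
  unfold ee
  rw [Complex.norm_exp, ← Real.exp_add, ← Real.exp_add]
  congr 1
  simp [sq]; ring

lemma ee_ee {t : ℝ} (h0 : 0 < t) (h1 : t < 1) (x y : ℝ) :
    ∫ z : ℂ, ee x z * conj (ee y z) * (exp (-(1 / t) * ‖z‖ ^ 2) : ℝ) = (π * t * meh t x y : ℝ) := by
  have hA : 0 < 1 / t + 1 := by positivity
  have hs : 0 < 1 / t - 1 := by rw [sub_pos, lt_div_iff₀ h0]; linarith
  have he : ∀ z : ℂ, ee x z * conj (ee y z) * (exp (-(1 / t) * ‖z‖ ^ 2) : ℝ)
      = Complex.exp (((-(1 / t + 1) * z.re ^ 2 - (1 / t - 1) * z.im ^ 2 + (x + y) * z.re : ℝ) : ℂ)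
        + ((0 * z.re * z.im + (x - y) * z.im : ℝ) : ℂ) * Complex.I) := by
    intro z
    unfold ee
    rw [← Complex.exp_conj, Complex.ofReal_exp, ← Complex.exp_add, ← Complex.exp_add,
      Complex.sq_norm, Complex.normSq_apply]
    congr 1
    apply Complex.ext <;> simp [sq, map_ofNat] <;> ring
  simp_rw [he]
  rw [plane hA hs]
  congr 1
  unfold meh
  have h2 : 0 < 1 - t := by linarith
  have h3 : 0 < 1 - t ^ 2 := by nlinarith
  rw [← mul_assoc]
  congr 1
  · rw [← Real.sqrt_mul (by positivity), ← Real.sqrt_inv,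
      ← Real.sqrt_sq (show 0 ≤ π * t by positivity), ← Real.sqrt_mul (by positivity)]
    congr 1
    field_simp; ring
  · congr 1
    have h4 : 1 - t ^ 2 = (1 - t) * (1 + t) := by ring
    rw [h4]
    field_simp; ring

lemma ee_tri {q : ℝ} (hq : q ^ 2 ≤ 1) (x a b : ℝ) :
    ∫ z : ℂ, ee x (2 * z) * conj (ee a (q * z) * ee b (q * z)) * (exp (-4 * ‖z‖ ^ 2) : ℝ)
      = (π / 4 * kq q x (a + b) : ℝ) := by
  have hA : 0 < 6 + q ^ 2 := by positivity
  have hs : 0 < 2 - q ^ 2 := by linarith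
  have he : ∀ z : ℂ, ee x (2 * z) * conj (ee a (q * z) * ee b (q * z)) * (exp (-4 * ‖z‖ ^ 2) : ℝ)
      = Complex.exp (((-(6 + q ^ 2) * z.re ^ 2 - (2 - q ^ 2) * z.im ^ 2
          + (2 * x + q * (a + b)) * z.re : ℝ) : ℂ)
        + ((-2 * (2 - q ^ 2) * z.re * z.im + (2 * x - q * (a + b)) * z.im : ℝ) : ℂ) * Complex.I) := by
    intro z
    unfold ee
    rw [← Complex.exp_add, ← Complex.exp_conj, Complex.ofReal_exp, ← Complex.exp_add,
      ← Complex.exp_add, Complex.sq_norm, Complex.normSq_apply]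
    congr 1
    apply Complex.ext <;> simp [sq, map_ofNat] <;> ring
  simp_rw [he]
  rw [plane hA hs]
  congr 1
  unfold kq
  have h8 : 6 + q ^ 2 + (-2 * (2 - q ^ 2)) ^ 2 / (4 * (2 - q ^ 2)) = 8 := by field_simp; ring
  rw [h8, ← mul_assoc]
  congr 1
  · rw [← Real.sqrt_mul (by positivity),
      ← Real.sqrt_sq (show 0 ≤ π / 4 by positivity), ← Real.sqrt_mul (by positivity)]
    congr 1
    field_simp; ring
  · congr 1
    field_simp; ring

end Pool.Agent.Lib.MP_cc278a_pr.SG
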