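import Pool.Agent.Lib.MP_cc278a_pr.SG.Ratio

set_option autoImplicit false
open MeasureTheory ProbabilityTheory Real Set Filter Topology
open scoped NNReal ENNReal ComplexConjugate Nat

namespace Pool.Agent.Lib.MP_cc278a_pr.SG

lemma meh_mass {t : ℝ} (h0 : 0 < t) (h1 : t < 1) (x : ℝ) :
    Integrable (meh t x) (gm 1) ∧ ∫ y, meh t x y ∂(gm 1) = 1 := by
  have hs : 0 < 1 - t ^ 2 := by nlinarith
  have hA : 0 < 1 + 2 * (t ^ 2 / (2 * (1 - t ^ 2))) * ((1 : ℝ≥0) : ℝ) := by positivity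
  have he : meh t x = fun y => ((√(1 - t ^ 2))⁻¹ * exp (-(t ^ 2 / (2 * (1 - t ^ 2))) * x ^ 2))
      * exp (-(t ^ 2 / (2 * (1 - t ^ 2))) * y ^ 2 + t / (1 - t ^ 2) * x * y) := by
    ext y; unfold meh; rw [mul_assoc ((√_)⁻¹), ← Real.exp_add]; congr 2; field_simp; ring
  rw [he]
  refine ⟨(gint_int one_ne_zero hA _).const_mul _, ?_⟩
  rw [integral_const_mul, gint one_ne_zero hA]
  have h2 : 1 + 2 * (t ^ 2 / (2 * (1 - t ^ 2))) * ((1 : ℝ≥0) : ℝ) = (1 - t ^ 2)⁻¹ := by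
    push_cast; field_simp; ring
  rw [h2, Real.sqrt_inv, inv_inv, mul_mul_mul_comm, ← Real.exp_add,
    inv_mul_cancel₀ (by positivity), one_mul, Real.exp_eq_one_iff]
  push_cast; field_simp; ring

lemma meh_gm (μ : Measure ℝ) [IsProbabilityMeasure μ] {t : ℝ} (h0 : 0 < t) (h1 : t < 1) :
    ∫ p, meh t p.1 p.2 ∂(μ.prod (gm 1)) = 1 := by
  have hi := intR μ (gm 1) (meh t) (by unfold meh; fun_prop) (fun _ _ => by unfold meh; positivity)
    (fun x => (meh_mass h0 h1 x).1) 1 (fun x => (meh_mass h0 h1 x).2.le)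
  refine (integral_prod _ hi).trans ?_
  simp [Function.uncurry, fun x => (meh_mass h0 h1 x).2]

/-- The quadratic functional. -/
noncomputable def Psi (μ : Measure ℝ) (t : ℝ) : ℝ := ∫ p, meh t p.1 p.2 ∂(μ.prod μ) - 1

section
variable {K : ℝ} {μ : Measure ℝ} [IsProbabilityMeasure μ] {q : ℝ}

lemma HK.JJ_eq (h : HK K μ) {t : ℝ} (h0 : 0 < t) (h1 : t < 1) :
    JJ μ 1 (1 / t) = π * t * Psi μ t := by
  have hg := HK_gm h.pos
  obtain ⟨i1, e1⟩ := bil h h h0 h1
  obtain ⟨i2, e2⟩ := bil h hg h0 h1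
  obtain ⟨i3, e3⟩ := bil hg hg h0 h1
  rw [meh_gm _ h0 h1] at e2 e3
  have r1 := integral_re i1
  have r2 := integral_re i2
  have r3 := integral_re i3
  rw [e1] at r1; rw [e2] at r2; rw [e3] at r3
  simp only [RCLike.re_to_complex, Complex.ofReal_re] at r1 r2 r3
  have j1 := i1.re
  have j2 := i2.re
  have j3 := i3.re
  simp only [RCLike.re_to_complex] at j1 j2 j3
  unfold JJ Psi
  rw [mul_sub, ← r1]
  have : π * t * 1 = 2 * (π * t * 1) - π * t * 1 := by ring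
  rw [this]
  nth_rewrite 2 [← r3]
  have s := integral_sub j1 ((j2.const_mul 2).sub j3)
  simp only [Pi.sub_apply] at s
  rw [← r2, ← integral_const_mul, ← integral_sub (j2.const_mul 2) j3, ← s]
  congr 1; ext z
  simp only [ss_gm, Complex.re_mul_ofReal, Complex.ofReal_one, one_mul, Complex.sq_norm (_ - 1),
    Complex.normSq_apply]
  simp; ring

lemma HK.Psi_le (h : HK K μ) {t : ℝ} (h0 : 0 < t) (h1 : t < 1) :
    Psi μ t ≤ K ^ 2 / √(1 - t) - 1 := by
  have ht : 1 < 1 / t := by rw [lt_div_iff₀ h0]; linarith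
  obtain ⟨i1, e1⟩ := bil h h h0 h1
  have h2 := norm_integral_le_of_norm_le ((wt_int zero_le_one ht).const_mul (K ^ 2))
    (f := fun z : ℂ => ss μ z * conj (ss μ z) * (exp (-(1 / t) * ‖z‖ ^ 2) : ℝ))
    (Eventually.of_forall fun z => by
      rw [norm_mul, norm_mul, Complex.norm_conj, Complex.norm_real,
        Real.norm_of_nonneg (exp_pos _).le, ← mul_assoc]
      refine mul_le_mul_of_nonneg_right ?_ (exp_pos _).le
      calc _ ≤ (K * exp (z.im ^ 2 / 2)) * (K * exp (z.im ^ 2 / 2)) :=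
            mul_self_le_mul_self (norm_nonneg _) (h.ss_norm z)
        _ = _ := by rw [mul_mul_mul_comm, ← Real.exp_add]; congr 1; ring; congr 1; ring)
  rw [e1, integral_const_mul, wt_eq zero_le_one ht, Complex.norm_real] at h2
  have h3 : √(π / (1 / t)) * √(π / (1 / t - 1)) = π * t / √(1 - t) := by
    have : 0 < 1 - t := by linarith
    rw [← Real.sqrt_mul (by positivity), ← Real.sqrt_sq (show 0 ≤ π * t by positivity),
      ← Real.sqrt_div (by positivity)]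
    congr 1
    field_simp
  rw [h3] at h2
  have h4 := (le_abs_self _).trans h2
  have h5 : 0 < π * t := by positivity
  unfold Psi
  rw [sub_le_sub_iff_right]
  refine le_of_mul_le_mul_left (h4.trans_eq ?_) h5
  ring

lemma HK.ze_abs (h : HK K μ) (hq : q ^ 2 ≤ 1) (y : ℝ) :
    |rq μ q y - 1| ≤ K * √(2 / (2 - q ^ 2)) + 1 := by
  have := abs_sub (rq μ q y) 1
  have h2 := h.rq_abs hq y
  simp only [abs_one] at this
  linarith

lemma HK.rq_int (h : HK K μ) (hq : q ^ 2 ≤ 1) : Integrable (rq μ q) (gm 2) :=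
  bdd_int _ (measurable_rq μ q) _ (h.rq_abs hq)

lemma HK.rr_int (h : HK K μ) {p : ℝ} (hq : q ^ 2 ≤ 1) (hp : p ^ 2 ≤ 1) :
    Integrable (fun y => rq μ q y * rq μ p y) (gm 2) :=
  (h.rq_int hq).mul_bdd (measurable_rq μ p).aestronglyMeasurable
    (Eventually.of_forall (h.rq_abs hp))

lemma HK.rr_eq (h : HK K μ) {p : ℝ} (hq : q ^ 2 ≤ 1) (hp : p ^ 2 ≤ 1) :
    ∫ y, rq μ q y * rq μ p y ∂(gm 2) = 1 + Psi μ (q * p / 2) := by
  rw [h.inner h hq hp]; unfold Psi; ring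

lemma HK.JJ_int (h : HK K μ) (hq : q ^ 2 ≤ 1) {β : ℝ} (hβ : 1 < β) :
    Integrable (fun z : ℂ => ‖ss μ (q * z) - 1‖ ^ 2 * exp (-β * ‖z‖ ^ 2)) := by
  have hc := h.ss_cont
  have hK := h.pos
  refine ((wt_int zero_le_one hβ).const_mul ((K + 1) ^ 2)).mono' (by fun_prop)
    (Eventually.of_forall fun z => ?_)
  rw [Real.norm_of_nonneg (by positivity), ← mul_assoc]
  refine mul_le_mul_of_nonneg_right ?_ (exp_pos _).le
  have h1 := norm_sub_le (ss μ (q * z)) 1
  have h2 := h.ss_norm (q * z)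
  have h3 : exp (((q : ℂ) * z).im ^ 2 / 2) ≤ exp (z.im ^ 2 / 2) := by
    refine Real.exp_le_exp.2 ?_
    simp only [Complex.mul_im, Complex.ofReal_re, Complex.ofReal_im, zero_mul, add_zero]
    nlinarith [sq_nonneg z.im]
  have h4 : 1 ≤ exp (z.im ^ 2 / 2) := Real.one_le_exp (by positivity)
  simp only [norm_one] at h1
  have h5 : ‖ss μ (q * z) - 1‖ ≤ (K + 1) * exp (z.im ^ 2 / 2) := by nlinarith
  calc _ ≤ ((K + 1) * exp (z.im ^ 2 / 2)) ^ 2 := pow_le_pow_left₀ (norm_nonneg _) h5 2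
    _ = _ := by rw [mul_pow, ← Real.exp_nat_mul]; congr 2; push_cast; ring

/-- The cubic term. -/
theorem HK.cubic (h : HK K μ) (hq : q ^ 2 ≤ 1) {a : ℝ} (ha : 0 < a)
    (hd : ∀ w : ℂ, ‖ss μ w ^ 2 - 1‖ ≤ a ^ 2 * exp (‖w‖ ^ 2)) :
    1 + 2 * Psi μ (q / 2) - 4 / π * (JJ μ q 4 + a * JJ μ q 2 + 1 / (2 * a) * JJ μ q 6)
      ≤ ∫ p, rq μ q (p.1 + p.2) ∂(μ.prod μ) := by
  have hg := HK_gm h.pos
  have h11 : (1 : ℝ) ^ 2 ≤ 1 := by norm_num
  obtain ⟨i1, e1⟩ := tri h h h hq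
  obtain ⟨i2, e2⟩ := tri h h hg hq
  obtain ⟨i3, e3⟩ := tri h hg hg hq
  obtain ⟨i4, e4⟩ := tri hg h h hq
  obtain ⟨i5, e5⟩ := tri hg h hg hq
  obtain ⟨i6, e6⟩ := tri hg hg hg hq
  rw [h.tri_eq hq] at e1 e2 e3
  rw [hg.tri_eq hq] at e4 e5 e6
  rw [h.lawY (measurable_rq μ q) _ (h.rq_abs hq), h.rr_eq h11 hq, one_mul] at e2
  rw [hg.lawY (measurable_rq μ q) _ (h.rq_abs hq)] at e3
  simp only [rq_gm h11, one_mul, h.rq_mass hq] at e3
  simp only [rq_gm hq, integral_const, probReal_univ, smul_eq_mul, mul_one] at e4 e5 e6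
  set w : ℂ → ℂ := fun z => ((exp (-4 * ‖z‖ ^ 2) : ℝ) : ℂ) with hw
  have e7 : ∫ z : ℂ, (ss μ (2 * z) - 1) * conj ((ss μ (q * z) - 1) ^ 2) * w z
      = ((π / 4 * (∫ p, rq μ q (p.1 + p.2) ∂(μ.prod μ) - 1 - 2 * Psi μ (q / 2)) : ℝ) : ℂ) := by
    have s1 := integral_sub i1 (i2.const_mul 2)
    have s2 := integral_add (i1.sub (i2.const_mul 2)) i3
    have s3 := integral_sub i4 (i5.const_mul 2)
    have s4 := integral_add (i4.sub (i5.const_mul 2)) i6
    have s5 := integral_sub ((i1.sub (i2.const_mul 2)).add i3) ((i4.sub (i5.const_mul 2)).add i6)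
    simp only [Pi.sub_apply, Pi.add_apply] at s2 s4 s5
    rw [s2, s4, s1, s3, integral_const_mul, integral_const_mul, e1, e2, e3, e4, e5, e6] at s5
    refine Eq.trans ?_ (s5.trans ?_)
    · congr 1; ext z
      simp only [ss_gm, hw, map_mul, map_pow, map_sub, map_one]
      ring
    · push_cast; ring
  have j4 := h.JJ_int hq (β := 4) (by norm_num)
  have j2 := h.JJ_int hq (β := 2) (by norm_num)
  have j6 := h.JJ_int hq (β := 6) (by norm_num)
  have h2 := norm_integral_le_of_norm_le ((j4.add (j2.const_mul a)).add (j6.const_mul (1 / (2 * a))))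
    (f := fun z : ℂ => (ss μ (2 * z) - 1) * conj ((ss μ (q * z) - 1) ^ 2) * w z)
    (Eventually.of_forall fun z => by
      simp only [hw, Pi.add_apply]
      rw [norm_mul, norm_mul, Complex.norm_conj, Complex.norm_real,
        Real.norm_of_nonneg (exp_pos _).le, norm_pow]
      set E := exp (2 * ‖z‖ ^ 2) with hE
      have hE0 : 0 < E := exp_pos _
      have x1 : exp (-2 * ‖z‖ ^ 2) = exp (-4 * ‖z‖ ^ 2) * E := by
        rw [hE, ← Real.exp_add]; congr 1; ring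
      have x2 : exp (-6 * ‖z‖ ^ 2) = exp (-4 * ‖z‖ ^ 2) * E⁻¹ := by
        rw [hE, ← Real.exp_neg, ← Real.exp_add]; congr 1; ring
      have x3 : exp (‖2 * z‖ ^ 2) = E ^ 2 := by
        rw [hE, ← Real.exp_nat_mul, norm_mul]; congr 1; simp; ring
      have x4 := hd (2 * z)
      rw [x3] at x4
      set s := ss μ (2 * z)
      have x5 : ‖s - 1‖ * (‖s - 1‖ - 2) ≤ a ^ 2 * E ^ 2 := by
        have y1 : s ^ 2 - 1 = (s - 1) * (s + 1) := by ring
        have y2 : ‖s - 1‖ - 2 ≤ ‖s + 1‖ := by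
          have := norm_sub_le (s + 1) 2
          rw [show s + 1 - 2 = s - 1 by ring] at this
          simp only [Complex.norm_ofNat] at this
          linarith
        rw [y1, norm_mul] at x4
        exact (mul_le_mul_of_nonneg_left y2 (norm_nonneg _)).trans x4
      have x6 : ‖s - 1‖ ≤ 1 + a * E + 1 / (2 * a) * E⁻¹ := by
        have y3 : 0 < a * E := by positivity
        have y4 : 1 / (2 * a) * E⁻¹ = 1 / (2 * (a * E)) := by field_simp
        rw [y4]
        have y5 : (a * E + 1 / (2 * (a * E))) ^ 2 ≥ a ^ 2 * E ^ 2 + 1 := by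
          have : (a * E + 1 / (2 * (a * E))) ^ 2
              = a ^ 2 * E ^ 2 + 1 + (1 / (2 * (a * E))) ^ 2 := by field_simp; ring
          rw [this]; nlinarith [sq_nonneg (1 / (2 * (a * E)))]
        have y6 : (‖s - 1‖ - 1) ^ 2 ≤ (a * E + 1 / (2 * (a * E))) ^ 2 := by nlinarith
        have := (abs_le_of_sq_le_sq' y6 (by positivity)).2
        linarith
      rw [x1, x2]
      have y7 : 0 ≤ ‖ss μ (q * z) - 1‖ ^ 2 * exp (-4 * ‖z‖ ^ 2) := by positivity
      nlinarith [mul_le_mul_of_nonneg_right x6 y7])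
  simp only [Pi.add_apply] at h2
  have s := integral_add (j4.add (j2.const_mul a)) (j6.const_mul (1 / (2 * a)))
  simp only [Pi.add_apply] at s
  rw [e7, s, integral_add j4 (j2.const_mul a),
    integral_const_mul, integral_const_mul, Complex.norm_real] at h2
  have h3 := (neg_le_abs _).trans h2
  have h5 : 0 < π / 4 := by positivity
  change _ ≤ JJ μ q 4 + a * JJ μ q 2 + 1 / (2 * a) * JJ μ q 6 at h3
  have h6 := mul_le_mul_of_nonneg_left h3 (show 0 ≤ 4 / π by positivity)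
  have h7 : ∀ X : ℝ, 4 / π * -(π / 4 * X) = -X := fun X => by field_simp
  rw [h7] at h6
  linarith

end

end Pool.Agent.Lib.MP_cc278a_pr.SG
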