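import Pool.Agent.Lib.MP_cc278a_pr.SG.Fock

set_option autoImplicit false
open MeasureTheory ProbabilityTheory Real Set Filter Topology
open scoped NNReal ENNReal ComplexConjugate Nat

namespace Pool.Agent.Lib.MP_cc278a_pr.SG

/-- Density ratio of the law of `q X + sqrt (2 - q^2) G` to `N(0,2)`. -/
noncomputable def rq (μ : Measure ℝ) (q y : ℝ) : ℝ := ∫ x, kq q x y ∂μ

lemma intR {α β : Type*} [MeasurableSpace α] [MeasurableSpace β] (m : Measure α) (ν : Measure β)
    [IsFiniteMeasure m] [SFinite ν] (F : α → β → ℝ) (hF : Measurable (Function.uncurry F))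
    (h0 : ∀ a x, 0 ≤ F a x) (h1 : ∀ a, Integrable (F a) ν) (C : ℝ) (h2 : ∀ a, ∫ x, F a x ∂ν ≤ C) :
    Integrable (Function.uncurry F) (m.prod ν) := by
  have hm : AEStronglyMeasurable (Function.uncurry F) (m.prod ν) := hF.aestronglyMeasurable
  refine (integrable_prod_iff hm).2 ⟨Eventually.of_forall h1, ?_⟩
  refine (integrable_const C).mono' hm.norm.integral_prod_right' (Eventually.of_forall fun z => ?_)
  rw [Real.norm_of_nonneg (integral_nonneg fun _ => norm_nonneg _)]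
  simp only [Function.uncurry, Real.norm_of_nonneg (h0 _ _)]
  exact h2 z

lemma measurable_kq (q : ℝ) {α : Type*} [MeasurableSpace α] {f g : α → ℝ} (hf : Measurable f)
    (hg : Measurable g) : Measurable (fun a => kq q (f a) (g a)) := by
  unfold kq; fun_prop

lemma measurable_rq (μ : Measure ℝ) [SFinite μ] (q : ℝ) : Measurable (rq μ q) :=
  (StronglyMeasurable.integral_prod_left' (μ := μ)
    (continuous_kq q).stronglyMeasurable).measurable

lemma rq_gm {q : ℝ} (hq : q ^ 2 ≤ 1) (y : ℝ) : rq (gm 1) q y = 1 := kq_mass' hq y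

lemma bdd_int {α : Type*} [MeasurableSpace α] (m : Measure α) [IsFiniteMeasure m] {f : α → ℝ}
    (hf : Measurable f) (C : ℝ) (h : ∀ a, |f a| ≤ C) : Integrable f m :=
  (integrable_const C).mono' hf.aestronglyMeasurable (Eventually.of_forall h)

lemma shift_gm (f : ℝ → ℝ) (x : ℝ) :
    ∫ z, f (x + z) ∂(gm 1) = ∫ y, kq 1 x y * f y ∂(gm 2) := by
  unfold gm
  rw [integral_gaussianReal_eq_integral_smul one_ne_zero,
    integral_gaussianReal_eq_integral_smul two_ne_zero,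
    ← integral_add_left_eq_self (fun y => gaussianPDFReal 0 2 y • (kq 1 x y * f y)) x]
  congr 1; ext z
  rw [smul_eq_mul, smul_eq_mul, ← mul_assoc]
  congr 1
  unfold gaussianPDFReal kq
  rw [mul_mul_mul_comm, ← Real.exp_add]
  congr 1
  · rw [← Real.sqrt_inv, ← Real.sqrt_inv, ← Real.sqrt_mul (by positivity)]
    congr 1
    push_cast; field_simp; ring
  · congr 1
    push_cast; ring

lemma mp_neg (μ : Measure ℝ) [SFinite μ] :
    MeasurePreserving (fun p : ℝ × ℝ => (p.1, -p.2)) (μ.prod (gm 1)) (μ.prod (gm 1)) := by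
  have h : MeasurePreserving (fun x : ℝ => -x) (gm 1) (gm 1) := by
    refine ⟨measurable_neg, ?_⟩
    unfold gm
    rw [gaussianReal_map_neg]; simp
  exact (MeasurePreserving.id μ).prod h

lemma sub_eq_add (μ : Measure ℝ) [SFinite μ] {f : ℝ → ℝ} (hf : Measurable f) :
    ∫ p, f (p.1 - p.2) ∂(μ.prod (gm 1)) = ∫ p, f (p.1 + p.2) ∂(μ.prod (gm 1)) := by
  conv_rhs => rw [← (mp_neg μ).map_eq]
  have hm : Measurable (fun p : ℝ × ℝ => f (p.1 + p.2)) := by fun_prop
  rw [integral_map (mp_neg μ).measurable.aemeasurable hm.aestronglyMeasurable]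
  simp [sub_eq_add_neg]

section
variable {K : ℝ} {μ : Measure ℝ} [IsProbabilityMeasure μ] {q : ℝ}

omit [IsProbabilityMeasure μ] in
lemma HK.kq_int (h : HK K μ) (hq : q ^ 2 ≤ 1) (y : ℝ) : Integrable (fun x => kq q x y) μ := by
  refine ((h.int (q * y / 2)).const_mul
    (√(2 / (2 - q ^ 2)) * exp (-((q * y / 2) ^ 2 / 2)))).mono'
    (measurable_kq q measurable_id measurable_const).aestronglyMeasurable
    (Eventually.of_forall fun x => ?_)
  rw [Real.norm_of_nonneg (kq_pos hq x y).le]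
  exact kq_le hq x y

omit [IsProbabilityMeasure μ] in
lemma HK.rq_le (h : HK K μ) (hq : q ^ 2 ≤ 1) (y : ℝ) : rq μ q y ≤ K * √(2 / (2 - q ^ 2)) := by
  calc rq μ q y ≤ ∫ x, √(2 / (2 - q ^ 2)) * exp (-((q * y / 2) ^ 2 / 2)) * exp (q * y / 2 * x) ∂μ :=
        integral_mono (h.kq_int hq y) ((h.int _).const_mul _) fun x => kq_le hq x y
    _ ≤ √(2 / (2 - q ^ 2)) * exp (-((q * y / 2) ^ 2 / 2)) * (K * exp ((q * y / 2) ^ 2 / 2)) := by
        rw [integral_const_mul]
        exact mul_le_mul_of_nonneg_left (h.le _) (by positivity)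
    _ = _ := by
        rw [mul_mul_mul_comm, ← Real.exp_add]; simp [mul_comm]

lemma HK.rq_pos (h : HK K μ) (hq : q ^ 2 ≤ 1) (y : ℝ) : 0 < rq μ q y := by
  unfold rq
  rw [integral_pos_iff_support_of_nonneg (fun x => (kq_pos hq x y).le) (h.kq_int hq y)]
  have : Function.support (fun x => kq q x y) = univ := by
    ext x; simp [(kq_pos hq x y).ne']
  rw [this]; simp

lemma HK.rq_abs (h : HK K μ) (hq : q ^ 2 ≤ 1) (y : ℝ) : |rq μ q y| ≤ K * √(2 / (2 - q ^ 2)) := by
  rw [abs_of_pos (h.rq_pos hq y)]; exact h.rq_le hq y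

lemma HK.prod_int (h : HK K μ) (hq : q ^ 2 ≤ 1) :
    Integrable (fun p : ℝ × ℝ => kq q p.2 p.1) ((gm 2).prod μ) :=
  intR (gm 2) μ (fun y x => kq q x y) (measurable_kq q measurable_snd measurable_fst)
    (fun _ _ => (kq_pos hq _ _).le) (h.kq_int hq) _ (h.rq_le hq)

lemma HK.rq_mass (h : HK K μ) (hq : q ^ 2 ≤ 1) : ∫ y, rq μ q y ∂(gm 2) = 1 := by
  unfold rq
  rw [integral_integral_swap (f := fun y x => kq q x y) (h.prod_int hq)]
  simp [fun x => (kq_mass hq x).2]

/-- The law of `X + G` has density `rq μ 1` with respect to `N(0,2)`. -/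
lemma HK.lawY (h : HK K μ) {f : ℝ → ℝ} (hf : Measurable f) (C : ℝ) (hC : ∀ y, |f y| ≤ C) :
    ∫ p, f (p.1 + p.2) ∂(μ.prod (gm 1)) = ∫ y, rq μ 1 y * f y ∂(gm 2) := by
  have hm : Measurable (fun p : ℝ × ℝ => f (p.1 + p.2)) := by fun_prop
  rw [integral_prod _ (bdd_int _ hm C fun p => hC _)]
  simp_rw [shift_gm f]
  have hi : Integrable (Function.uncurry fun y x => kq 1 x y * f y) ((gm 2).prod μ) :=
    (h.prod_int (q := 1) (by norm_num)).mul_bdd (c := C)
      (hf.comp measurable_fst).aestronglyMeasurable (Eventually.of_forall fun p => hC _)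
  rw [← integral_integral_swap hi]
  simp_rw [integral_mul_const]
  rfl

lemma HK.inner {ν : Measure ℝ} [IsProbabilityMeasure ν] (h : HK K μ) (h' : HK K ν) {p : ℝ}
    (hq : q ^ 2 ≤ 1) (hp : p ^ 2 ≤ 1) :
    ∫ y, rq μ q y * rq ν p y ∂(gm 2) = ∫ w, meh (q * p / 2) w.1 w.2 ∂(μ.prod ν) := by
  have h1 : ∀ y, ∫ w, kq q w.1 y * kq p w.2 y ∂(μ.prod ν) = rq μ q y * rq ν p y := fun y =>
    integral_prod_mul (fun x => kq q x y) (fun x => kq p x y)
  have hi := intR (gm 2) (μ.prod ν) (fun y w => kq q w.1 y * kq p w.2 y)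
    ((measurable_kq q (measurable_fst.comp measurable_snd) measurable_fst).mul
      (measurable_kq p (measurable_snd.comp measurable_snd) measurable_fst))
    (fun _ _ => mul_nonneg (kq_pos hq _ _).le (kq_pos hp _ _).le)
    (fun y => (h.kq_int hq y).mul_prod (h'.kq_int hp y)) _ (fun y => by
      rw [h1]
      exact mul_le_mul (h.rq_le hq y) (h'.rq_le hp y) (h'.rq_pos hp y).le
        ((h.rq_pos hq y).le.trans (h.rq_le hq y)))
  simp_rw [← h1]
  rw [integral_integral_swap hi]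
  simp_rw [fun a b => (kq_kq hq hp a b).2]

lemma HK.lawW (h : HK K μ) (hq : q ^ 2 ≤ 1) :
    ∫ p, rq μ q (p.1 + p.2) ∂(μ.prod μ)
      = ∫ p, rq μ q (p.1 + p.2) * rq μ q (p.1 - p.2) ∂(μ.prod (gm 1)) := by
  have h1 : ∀ p : ℝ × ℝ, ∫ w, kq q w.1 (p.1 + p.2) * kq q w.2 (p.1 - p.2) ∂(μ.prod μ)
      = rq μ q (p.1 + p.2) * rq μ q (p.1 - p.2) := fun p =>
    integral_prod_mul (fun x => kq q x (p.1 + p.2)) (fun x => kq q x (p.1 - p.2))
  have hi := intR (μ.prod (gm 1)) (μ.prod μ)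
    (fun p w => kq q w.1 (p.1 + p.2) * kq q w.2 (p.1 - p.2))
    ((measurable_kq q (by fun_prop) (by fun_prop)).mul (measurable_kq q (by fun_prop) (by fun_prop)))
    (fun _ _ => mul_nonneg (kq_pos hq _ _).le (kq_pos hq _ _).le)
    (fun y => (h.kq_int hq _).mul_prod (h.kq_int hq _)) _ (fun y => by
      rw [h1]
      exact mul_le_mul (h.rq_le hq _) (h.rq_le hq _) (h.rq_pos hq _).le
        ((h.rq_pos hq 0).le.trans (h.rq_le hq 0)))
  simp_rw [← h1]
  rw [integral_integral_swap hi]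
  refine integral_congr_ae ?_
  filter_upwards [hi.prod_left_ae] with w hw
  simp only [Function.uncurry] at hw
  rw [integral_prod _ hw]
  simp_rw [fun x => (kq_prod hq x w.1 w.2).2]
  rfl

lemma HK.tri_eq {ν ρ : Measure ℝ} [IsProbabilityMeasure ν] [IsProbabilityMeasure ρ] (h : HK K μ)
    (hq : q ^ 2 ≤ 1) :
    ∫ p, kq q p.1 (p.2.1 + p.2.2) ∂(μ.prod (ν.prod ρ)) = ∫ p, rq μ q (p.1 + p.2) ∂(ν.prod ρ) := by
  have hi := intR (ν.prod ρ) μ (fun p x => kq q x (p.1 + p.2))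
    (measurable_kq q (by fun_prop) (by fun_prop)) (fun _ _ => (kq_pos hq _ _).le)
    (fun y => h.kq_int hq _) _ (fun y => h.rq_le hq _)
  exact integral_prod_symm _ hi.swap

end

end Pool.Agent.Lib.MP_cc278a_pr.SG
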