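import Pool.Agent.Lib.MP_cc278a_pr.SG.Plane

set_option autoImplicit false
open MeasureTheory ProbabilityTheory Real Set Filter Topology
open scoped NNReal ENNReal ComplexConjugate Nat

namespace Pool.Agent.Lib.MP_cc278a_pr.SG

lemma rad_eq {β : ℝ} (hβ : 0 < β) (n : ℕ) :
    ∫ z : ℂ, ‖z‖ ^ n * exp (-β * ‖z‖ ^ 2) = π * β ^ (-((n : ℝ) + 2) / 2) * Gamma (((n : ℝ) + 2) / 2) := by
  have h := Complex.integral_rpow_mul_exp_neg_mul_rpow (p := 2) (q := n) (b := β) (by norm_num)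
    (by have : (0 : ℝ) ≤ n := n.cast_nonneg; linarith) hβ
  simp_rw [Real.rpow_natCast, Real.rpow_two] at h
  rw [h]; ring

lemma rad_int {β : ℝ} (hβ : 0 < β) (n : ℕ) :
    Integrable (fun z : ℂ => ‖z‖ ^ n * exp (-β * ‖z‖ ^ 2)) := by
  by_contra h
  have := rad_eq hβ n
  rw [integral_undef h] at this
  have h2 : 0 < Gamma (((n : ℝ) + 2) / 2) := Real.Gamma_pos_of_pos (by positivity)
  have h3 : 0 < π * β ^ (-((n : ℝ) + 2) / 2) * Gamma (((n : ℝ) + 2) / 2) := by positivity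
  linarith

lemma rad_even {β : ℝ} (hβ : 0 < β) (k : ℕ) :
    ∫ z : ℂ, ‖z‖ ^ (2 * k) * exp (-β * ‖z‖ ^ 2) = π * k ! / β ^ (k + 1) := by
  rw [rad_eq hβ]
  have h1 : (((2 * k : ℕ) : ℝ) + 2) / 2 = (k : ℝ) + 1 := by push_cast; ring
  have h2 : -(((2 * k : ℕ) : ℝ) + 2) / 2 = -((k + 1 : ℕ) : ℝ) := by push_cast; ring
  rw [h1, h2, Real.Gamma_nat_eq_factorial, Real.rpow_neg hβ.le, Real.rpow_natCast]
  ring

lemma mono_int {β : ℝ} (hβ : 0 < β) (j k : ℕ) :
    Integrable (fun z : ℂ => z ^ j * conj z ^ k * (exp (-β * ‖z‖ ^ 2) : ℝ)) := by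
  refine (rad_int hβ (j + k)).mono' (by fun_prop) (Eventually.of_forall fun z => ?_)
  rw [norm_mul, norm_mul, norm_pow, norm_pow, Complex.norm_conj, Complex.norm_real,
    Real.norm_of_nonneg (exp_pos _).le, pow_add]

lemma mono_eq {β : ℝ} (hβ : 0 < β) (j k : ℕ) :
    ∫ z : ℂ, z ^ j * conj z ^ k * (exp (-β * ‖z‖ ^ 2) : ℝ)
      = if j = k then ((π * k ! / β ^ (k + 1) : ℝ) : ℂ) else 0 := by
  split_ifs with h
  · subst h
    rw [← rad_even hβ, ← integral_complex_ofReal]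
    congr 1; ext z
    rw [← mul_pow, Complex.mul_conj, Complex.normSq_eq_norm_sq]
    push_cast; ring
  · set ph : ℝ := π / ((j : ℝ) - k) with hph
    have hjk : (j : ℝ) - k ≠ 0 := by
      rw [sub_ne_zero]; exact_mod_cast h
    have hm := (rotation (Circle.exp ph)).measurePreserving.integral_comp
      (rotation (Circle.exp ph)).toHomeomorph.measurableEmbedding
      (fun z : ℂ => z ^ j * conj z ^ k * (exp (-β * ‖z‖ ^ 2) : ℝ))
    have hu : (Complex.exp (ph * Complex.I)) ^ j * conj (Complex.exp (ph * Complex.I)) ^ k = -1 := by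
      rw [← Complex.exp_conj, ← Complex.exp_nat_mul, ← Complex.exp_nat_mul, ← Complex.exp_add,
        ← Complex.exp_pi_mul_I]
      congr 1
      have : (π : ℂ) = ((j : ℂ) - k) * ph := by
        have : π = ((j : ℝ) - k) * ph := by rw [hph]; field_simp
        exact_mod_cast congrArg (fun x : ℝ => (x : ℂ)) this
      rw [this]
      simp; ring
    have h2 : ∀ z : ℂ, (rotation (Circle.exp ph) z) ^ j * conj (rotation (Circle.exp ph) z) ^ k
        * (exp (-β * ‖rotation (Circle.exp ph) z‖ ^ 2) : ℝ)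
        = -(z ^ j * conj z ^ k * (exp (-β * ‖z‖ ^ 2) : ℝ)) := by
      intro z
      rw [LinearIsometryEquiv.norm_map, rotation_apply, Circle.coe_exp, map_mul, mul_pow, mul_pow,
        mul_mul_mul_comm, hu]
      ring
    simp_rw [h2] at hm
    rw [integral_neg] at hm
    linear_combination (-1 / 2 : ℂ) * hm

lemma poly_eq {β : ℝ} (hβ : 0 < β) (a : ℕ → ℂ) (n : ℕ) :
    ∫ z : ℂ, ‖∑ k ∈ Finset.range n, a k * z ^ k‖ ^ 2 * exp (-β * ‖z‖ ^ 2)
      = ∑ k ∈ Finset.range n, ‖a k‖ ^ 2 * (π * k ! / β ^ (k + 1)) := by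
  apply Complex.ofReal_injective
  rw [← integral_complex_ofReal]
  have h1 : ∀ z : ℂ, ((‖∑ k ∈ Finset.range n, a k * z ^ k‖ ^ 2 * exp (-β * ‖z‖ ^ 2) : ℝ) : ℂ)
      = ∑ j ∈ Finset.range n, ∑ k ∈ Finset.range n,
        (a j * conj (a k)) * (z ^ j * conj z ^ k * (exp (-β * ‖z‖ ^ 2) : ℝ)) := by
    intro z
    rw [Complex.ofReal_mul, ← Complex.normSq_eq_norm_sq, ← Complex.mul_conj, map_sum,
      Finset.sum_mul_sum, Finset.sum_mul]
    refine Finset.sum_congr rfl fun j _ => ?_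
    rw [Finset.sum_mul]
    refine Finset.sum_congr rfl fun k _ => ?_
    rw [map_mul, map_pow]; ring
  simp_rw [h1]
  rw [integral_finsetSum _ fun j _ => integrable_finsetSum _ fun k _ =>
    (mono_int hβ j k).const_mul _]
  push_cast
  refine Finset.sum_congr rfl fun j hj => ?_
  have := integral_finsetSum (μ := (volume : Measure ℂ)) (Finset.range n) fun k _ =>
    (mono_int hβ j k).const_mul (a j * conj (a k))
  push_cast at this
  rw [this]
  have h3 := fun k => mono_eq hβ j k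
  push_cast at h3
  simp_rw [integral_const_mul, h3]
  simp only [mul_ite, mul_zero, Finset.sum_ite_eq, hj, if_true]
  rw [Complex.mul_conj, Complex.normSq_eq_norm_sq]
  push_cast; ring

theorem series (a : ℕ → ℂ) (F : ℂ → ℂ) (C : ℝ)
    (hF : ∀ z, HasSum (fun k => a k * z ^ k) (F z))
    (hb : ∀ (k : ℕ) (R : ℝ), 0 < R → ‖a k‖ * R ^ k ≤ C * exp (R ^ 2 / 2)) {β : ℝ} (hβ : 1 < β) :
    HasSum (fun k => ‖a k‖ ^ 2 * (π * k ! / β ^ (k + 1)))
      (∫ z : ℂ, ‖F z‖ ^ 2 * exp (-β * ‖z‖ ^ 2)) := by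
  have hβ0 : 0 < β := by linarith
  obtain ⟨l, hl1, hl2⟩ : ∃ l : ℝ, 1 < l ∧ l ^ 2 < β := by
    refine ⟨√((1 + β) / 2), ?_, ?_⟩
    · rw [Real.lt_sqrt (by norm_num)]; linarith
    · rw [Real.sq_sqrt (by linarith)]; linarith
  have hl0 : 0 < l := by linarith
  have hC : 0 ≤ C := by
    have := hb 0 1 one_pos
    have h2 : 0 ≤ C * exp (1 ^ 2 / 2) := le_trans (by positivity) this
    exact nonneg_of_mul_nonneg_left h2 (exp_pos _)
  have hi : (0 : ℝ) ≤ l⁻¹ := by positivity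
  have hi1 : l⁻¹ < 1 := inv_lt_one_of_one_lt₀ hl1
  rw [hasSum_iff_tendsto_nat_of_nonneg (fun k => by positivity)]
  simp_rw [← poly_eq hβ0]
  refine tendsto_integral_of_dominated_convergence
    (fun z : ℂ => (C * (1 - l⁻¹)⁻¹) ^ 2 * (‖z‖ ^ 0 * exp (-(β - l ^ 2) * ‖z‖ ^ 2)))
    (fun n => by fun_prop) ((rad_int (by linarith) 0).const_mul _) (fun n => ?_)
    (Eventually.of_forall fun z => ?_)
  · filter_upwards [(volume : Measure ℂ).ae_ne 0] with z hz
    have hz0 : 0 < ‖z‖ := norm_pos_iff.2 hz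
    have h1 : ‖∑ k ∈ Finset.range n, a k * z ^ k‖
        ≤ C * (1 - l⁻¹)⁻¹ * exp ((l * ‖z‖) ^ 2 / 2) := by
      calc _ ≤ ∑ k ∈ Finset.range n, C * exp ((l * ‖z‖) ^ 2 / 2) * l⁻¹ ^ k := by
            refine (norm_sum_le _ _).trans (Finset.sum_le_sum fun k _ => ?_)
            have := hb k (l * ‖z‖) (by positivity)
            rw [norm_mul, norm_pow]
            calc ‖a k‖ * ‖z‖ ^ k = ‖a k‖ * (l * ‖z‖) ^ k * l⁻¹ ^ k := by
                  rw [mul_assoc, ← mul_pow]; congr 2; field_simp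
              _ ≤ _ := mul_le_mul_of_nonneg_right this (by positivity)
        _ ≤ C * exp ((l * ‖z‖) ^ 2 / 2) * (1 - l⁻¹)⁻¹ := by
            rw [← Finset.mul_sum]
            refine mul_le_mul_of_nonneg_left ?_ (by positivity)
            exact sum_le_hasSum _ (fun k _ => by positivity) (hasSum_geometric_of_lt_one hi hi1)
        _ = _ := by ring
    rw [Real.norm_of_nonneg (by positivity)]
    calc _ ≤ (C * (1 - l⁻¹)⁻¹ * exp ((l * ‖z‖) ^ 2 / 2)) ^ 2 * exp (-β * ‖z‖ ^ 2) :=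
          mul_le_mul_of_nonneg_right (pow_le_pow_left₀ (norm_nonneg _) h1 2) (exp_pos _).le
      _ = _ := by
          rw [mul_pow, mul_assoc, ← Real.exp_nat_mul, ← Real.exp_add, pow_zero, one_mul]
          congr 2
          push_cast; ring
  · exact (((hF z).tendsto_sum_nat.norm).pow 2).mul_const _

end Pool.Agent.Lib.MP_cc278a_pr.SG
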