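import Pool.Agent.Lib.MP_cc278a_pr.SG.Test

set_option autoImplicit false
open MeasureTheory ProbabilityTheory Real Set Filter Topology
open scoped NNReal ENNReal ComplexConjugate Nat

namespace Pool.Agent.Lib.MP_cc278a_pr.SG

lemma step (c : ℕ → ℝ) (hc : ∀ k, 0 ≤ c k) (c0 : c 0 = 0) (c1 : c 1 = 0) (c2 : c 2 = 0) (P : ℝ → ℝ)
    (hP : ∀ t, 0 < t → t < 1 → HasSum (fun k => c k * t ^ k) (P t)) {q e κ m g t L : ℝ} (l : ℕ → ℝ)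
    (hL : HasSum (fun k => c k * (l k * (q * q / 2) ^ k)) L) (hq0 : 0 < q) (hq1 : q ≤ 1)
    (ht0 : 0 < t) (ht1 : t < 1)
    (hterm : ∀ k, 3 ≤ k → m - g * (2 * t) ^ k
      ≤ 2 * e * q ^ k - e * l k * (q ^ k) ^ 2 - κ * (1 / 2 + e * q ^ k) ^ 2) :
    m * P (1 / 2) - g * P t
      ≤ e * (2 * P (q / 2) - L) - κ * (P (1 / 2) / 4 + e * P (q / 2) + e ^ 2 * P (q * q / 2)) := by
  have a1 := hP (1 / 2) (by norm_num) (by norm_num)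
  have a2 := hP t ht0 ht1
  have a3 := hP (q / 2) (by positivity) (by linarith)
  have a4 := hP (q * q / 2) (by positivity) (by nlinarith)
  refine hasSum_le (fun k => ?_) ((a1.mul_left m).sub (a2.mul_left g))
    ((((a3.mul_left 2).sub hL).mul_left e).sub
      ((((a1.div_const 4).add (a3.mul_left e)).add (a4.mul_left (e ^ 2))).mul_left κ))
  by_cases hk : 3 ≤ k
  · have b := mul_le_mul_of_nonneg_left (hterm k hk)
      (show 0 ≤ c k * (1 / 2) ^ k from mul_nonneg (hc k) (by positivity))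
    have x1 : t ^ k = (1 / 2) ^ k * (2 * t) ^ k := by rw [← mul_pow]; congr 1; ring
    have x2 : (q / 2) ^ k = (1 / 2) ^ k * q ^ k := by rw [← mul_pow]; congr 1; ring
    have x3 : (q * q / 2) ^ k = (1 / 2) ^ k * (q ^ k) ^ 2 := by
      rw [← pow_mul, mul_comm k 2, pow_mul, ← mul_pow]; congr 1; ring
    rw [x1, x2, x3]
    refine le_of_eq_of_le ?_ (b.trans_eq ?_) <;> ring
  · have : c k = 0 := by
      have : k = 0 ∨ k = 1 ∨ k = 2 := by omega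
      rcases this with rfl | rfl | rfl <;> assumption
    simp [this]

lemma term {q e κ m g t A B C : ℝ} (N : ℕ) (hq0 : 0 ≤ q) (hq1 : q ≤ 1) (he : 0 ≤ e) (hκ : 0 ≤ κ)
    (hg : 0 ≤ g) (ht : 1 ≤ 2 * t) (hA : 0 ≤ A) (hB : 0 ≤ B) (hC : 0 ≤ C)
    (hfin : ∀ k, 3 ≤ k → k < N → m - g * (2 * t) ^ k ≤ 2 * e * q ^ k
      - e * (A + B * (1 / 2) ^ k + C * (1 / 3) ^ k) * (q ^ k) ^ 2 - κ * (1 / 2 + e * q ^ k) ^ 2)
    (h1 : m + κ / 4 ≤ g * (2 * t) ^ N)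
    (h2 : (A + B * (1 / 2) ^ N + C * (1 / 3) ^ N + κ * e) * q ^ N ≤ 2 - κ) (k : ℕ) (hk : 3 ≤ k) :
    m - g * (2 * t) ^ k ≤ 2 * e * q ^ k
      - e * (A + B * (1 / 2) ^ k + C * (1 / 3) ^ k) * (q ^ k) ^ 2 - κ * (1 / 2 + e * q ^ k) ^ 2 := by
  rcases lt_or_ge k N with h | h
  · exact hfin k hk h
  have a1 := mul_le_mul_of_nonneg_left (pow_le_pow_right₀ ht h) hg
  have a2 : q ^ k ≤ q ^ N := pow_le_pow_of_le_one hq0 hq1 h
  have a3 := mul_le_mul_of_nonneg_left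
    (pow_le_pow_of_le_one (a := (1 / 2 : ℝ)) (by norm_num) (by norm_num) h) hB
  have a4 := mul_le_mul_of_nonneg_left
    (pow_le_pow_of_le_one (a := (1 / 3 : ℝ)) (by norm_num) (by norm_num) h) hC
  have a5 : (A + B * (1 / 2) ^ k + C * (1 / 3) ^ k + κ * e) * q ^ k ≤ 2 - κ :=
    (mul_le_mul (by linarith) a2 (by positivity) (by positivity)).trans h2
  have a6 := mul_le_mul_of_nonneg_left a5 (show 0 ≤ e * q ^ k by positivity)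
  nlinarith

/-- Standing assumptions. -/
structure ST (K : ℝ) (μ : Measure ℝ) (d : ℝ) : Prop where
  hk : HK K μ
  l2 : MemLp id 2 μ
  m1 : ∫ x, x ∂μ = 0
  m2 : ∫ x, x ^ 2 ∂μ = 1
  gb : GB μ d

section
variable {K : ℝ} {μ : Measure ℝ} [IsProbabilityMeasure μ] {d : ℝ}

lemma ST.series (h : ST K μ d) : ∃ c : ℕ → ℝ, (∀ k, 0 ≤ c k) ∧ c 0 = 0 ∧ c 1 = 0 ∧ c 2 = 0 ∧
    (∀ t, 0 < t → t < 1 → HasSum (fun k => c k * t ^ k) (Psi μ t)) ∧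
    ∀ q β : ℝ, 0 < q → q ≤ 1 → 1 < β →
      HasSum (fun k => c k * (q * q / β) ^ k) (β / π * JJ μ q β) := by
  obtain ⟨c, h0, c0, c1, c2, hs⟩ := h.hk.coeff h.m1 h.m2
  have key : ∀ q β : ℝ, 0 < q → q ≤ 1 → 1 < β →
      HasSum (fun k => c k * (q * q / β) ^ k) (β / π * JJ μ q β) := fun q β a b e => by
    have hβ : 0 < β := by linarith
    refine (congrArg (HasSum · _) (funext fun k => ?_)).mp ((hs q β a b e).mul_left (β / π))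
    rw [div_pow, ← pow_two, ← pow_mul, pow_succ]
    field_simp
  refine ⟨c, h0, c0, c1, c2, fun t t0 t1 => ?_, key⟩
  have ht : 1 < 1 / t := by rw [lt_div_iff₀ t0]; linarith
  have := key 1 (1 / t) one_pos le_rfl ht
  rw [h.hk.JJ_eq t0 t1] at this
  convert this using 1
  · ext k; congr 2; field_simp
  · field_simp

lemma sqrt_two_le : √2 ≤ 14143 / 10000 := Real.sqrt_le_iff.2 (by norm_num)

theorem ST.regime (h : ST K μ d) {q e κ u b m g s A B C : ℝ} (hq0 : 0 < q) (hq1 : q ≤ 1)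
    (he : 0 ≤ e) (hb0 : 0 ≤ b) (hb : 2 / (2 - q ^ 2) ≤ b ^ 2) (hu0 : 0 ≤ u) (hu1 : u ≤ 1)
    (hu : (K * (14143 / 10000) - 1) / 2 + e * (K * b - 1) ≤ u)
    (hκ : 1 / 2 + u / 6 + u ^ 2 / 24 + u ^ 3 / 100 ≤ κ) (hs0 : 0 < s) (hs1 : s < 1) (hg : 0 ≤ g)
    (hcase : (K * (14143 / 10000) ≤ A ∧ B = 0 ∧ C = 0) ∨ ∃ a θ : ℝ, 0 < a ∧ 0 < θ ∧
      d / θ + θ * (1 / 2 + K ^ 2 / 9) ≤ a ^ 2 ∧ A = 2 * a ∧ B = 1 ∧ C = 1 / (3 * a))
    (hterm : ∀ k, 3 ≤ k → m - g * (2 * (1 - s ^ 2)) ^ k ≤ 2 * e * q ^ k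
      - e * (A + B * (1 / 2) ^ k + C * (1 / 3) ^ k) * (q ^ k) ^ 2 - κ * (1 / 2 + e * q ^ k) ^ 2) :
    m * Psi μ (1 / 2) - g * (K ^ 2 / s - 1) ≤ d - DD μ := by
  obtain ⟨c, hc, c0, c1, c2, hP, hJ⟩ := h.series
  have hK : 0 ≤ K := zero_le_one.trans h.hk.pos
  have hq : q ^ 2 ≤ 1 := by nlinarith
  have t0 : 0 < 1 - s ^ 2 := by nlinarith
  have t1 : 1 - s ^ 2 < 1 := by nlinarith
  have s2 := mul_le_mul_of_nonneg_left sqrt_two_le hK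
  have a1 := h.hk.test h.l2 h.gb hq he (fun v hv => exp_kap hu0 hu1 hκ hv) (by
    have x1 : √(2 / (2 - q ^ 2)) ≤ b := Real.sqrt_le_iff.2 ⟨hb0, hb⟩
    have x2 := mul_le_mul_of_nonneg_left (mul_le_mul_of_nonneg_left x1 hK) he
    nlinarith)
  have a2 := h.hk.Psi_le t0 t1
  rw [show 1 - (1 - s ^ 2) = s ^ 2 by ring, Real.sqrt_sq hs0.le] at a2
  have a3 := mul_le_mul_of_nonneg_left a2 hg
  obtain ⟨L, hL, hW⟩ : ∃ L, HasSum (fun k => c k * ((A + B * (1 / 2) ^ k + C * (1 / 3) ^ k)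
      * (q * q / 2) ^ k)) L ∧
      1 + 2 * Psi μ (q / 2) - L ≤ ∫ p, rq μ q (p.1 + p.2) ∂(μ.prod μ) := by
    rcases hcase with ⟨x1, rfl, rfl⟩ | ⟨a, θ, ha, hθ, x1, rfl, rfl, rfl⟩
    · refine ⟨_, ?_, h.hk.amgm hq (s2.trans x1)⟩
      refine (congrArg (HasSum · _) (funext fun k => ?_)).mp
        ((hP (q * q / 2) (by positivity) (by nlinarith)).mul_left A)
      ring
    · refine ⟨_, ?_, h.hk.cubic hq ha fun w => (h.hk.delta h.gb hθ w).trans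
        (mul_le_mul_of_nonneg_right x1 (exp_pos _).le)⟩
      have y4 := hJ q 4 hq0 hq1 (by norm_num)
      have y2 := hJ q 2 hq0 hq1 (by norm_num)
      have y6 := hJ q 6 hq0 hq1 (by norm_num)
      convert (y4.add (y2.mul_left (2 * a))).add (y6.mul_left (1 / (3 * a))) using 1
      · ext k
        have z4 : (q * q / 4) ^ k = (1 / 2) ^ k * (q * q / 2) ^ k := by
          rw [← mul_pow]; congr 1; ring
        have z6 : (q * q / 6) ^ k = (1 / 3) ^ k * (q * q / 2) ^ k := by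
          rw [← mul_pow]; congr 1; ring
        rw [z4, z6]; ring
      · field_simp; ring
  have a4 := step c hc c0 c1 c2 _ hP _ hL hq0 hq1 t0 t1 hterm
  have a5 := mul_le_mul_of_nonneg_left hW he
  nlinarith

theorem ST.fock (h : ST K μ d) (hd : d < DD μ) {U V : ℝ} (hU : Psi μ (1 / 2) ≤ U)
    (q e κ u b m g s a θ : ℝ) (N : ℕ)
    (hn : 0 < q ∧ q ≤ 1 ∧ 0 ≤ e ∧ 0 ≤ b ∧ 2 / (2 - q ^ 2) ≤ b ^ 2 ∧ 0 ≤ u ∧ u ≤ 1 ∧
      (K * (14143 / 10000) - 1) / 2 + e * (K * b - 1) ≤ u ∧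
      1 / 2 + u / 6 + u ^ 2 / 24 + u ^ 3 / 100 ≤ κ ∧ 0 < s ∧ s < 1 ∧ 0 ≤ g ∧ 0 < a ∧ 0 < θ ∧
      U / θ + θ * (1 / 2 + K ^ 2 / 9) ≤ a ^ 2 ∧ 0 ≤ κ ∧ 1 ≤ 2 * (1 - s ^ 2) ∧
      m + κ / 4 ≤ g * (2 * (1 - s ^ 2)) ^ N ∧
      (2 * a + 1 * (1 / 2) ^ N + 1 / (3 * a) * (1 / 3) ^ N + κ * e) * q ^ N ≤ 2 - κ ∧
      0 < m ∧ g * (K ^ 2 / s - 1) ≤ m * V)
    (hfin : ∀ k, 3 ≤ k → k < N → m - g * (2 * (1 - s ^ 2)) ^ k ≤ 2 * e * q ^ k
      - e * (2 * a + 1 * (1 / 2) ^ k + 1 / (3 * a) * (1 / 3) ^ k) * (q ^ k) ^ 2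
      - κ * (1 / 2 + e * q ^ k) ^ 2) : Psi μ (1 / 2) ≤ V := by
  obtain ⟨n1, n2, n3, n4, n5, n6, n7, n8, n9, n10, n11, n12, n13, n14, n15, n16, n17, n18, n19,
    n20, n21⟩ := hn
  have hdU : d ≤ U := (hd.le.trans (h.hk.DD_le h.l2)).trans hU
  have := h.regime n1 n2 n3 n4 n5 n6 n7 n8 n9 n10 n11 n12
    (Or.inr ⟨a, θ, n13, n14, le_trans (by gcongr) n15, rfl, rfl, rfl⟩)
    (term N n1.le n2 n3 n16 n12 n17 (by positivity) zero_le_one (by positivity) hfin n18 n19)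
  exact le_of_mul_le_mul_left (by linarith) n20

end

end Pool.Agent.Lib.MP_cc278a_pr.SG
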