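import Pool.Agent.Lib.MP_cc278a_pr.SG.Quad
import Pool.Agent.Lib.MP_cc278a_pr.Cross

set_option autoImplicit false
open MeasureTheory ProbabilityTheory Real Set Filter Topology
open scoped NNReal ENNReal ComplexConjugate Nat

namespace Pool.Agent.Lib.MP_cc278a_pr.SG

/-- The variational lower bounds for the deficit `d`. -/
def GB (μ : Measure ℝ) (d : ℝ) : Prop := ∀ v t : ℝ → ℝ, Measurable v → Measurable t →
  (∀ y, exp (v y) ≤ t y) → Integrable (fun p : ℝ × ℝ => v (p.1 + p.2)) (μ.prod μ) →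
  Integrable t (gm 2) → ∫ p, v (p.1 + p.2) ∂(μ.prod μ) - (∫ y, t y ∂(gm 2) - 1) ≤ d

lemma exp_neg_quad {u : ℝ} (hu : u ≤ 0) : exp u ≤ 1 + u + u ^ 2 / 2 := by
  have h1 := Real.quadratic_le_exp_of_nonneg (neg_nonneg.2 hu)
  have h2 : exp u * exp (-u) = 1 := by rw [← Real.exp_add]; simp
  have h3 : 0 < 1 + u + u ^ 2 / 2 := by nlinarith [sq_nonneg (u + 1)]
  have h4 := mul_le_mul_of_nonneg_left h1 h3.le
  have h5 : 1 ≤ (1 + u + u ^ 2 / 2) * exp (-u) := by nlinarith [sq_nonneg (u ^ 2)]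
  have h6 := mul_le_mul_of_nonneg_left h5 (exp_pos u).le
  calc exp u = exp u * 1 := by ring
    _ ≤ _ := h6
    _ = (1 + u + u ^ 2 / 2) * (exp u * exp (-u)) := by ring
    _ = _ := by rw [h2, mul_one]

lemma exp_quad (u : ℝ) : exp (u - u ^ 2 / 9) ≤ 1 + u + u ^ 2 / 2 := by
  rcases le_total u 0 with hu | hu
  · exact (Real.exp_le_exp.2 (by nlinarith [sq_nonneg u])).trans (exp_neg_quad hu)
  have hd : ∀ x : ℝ, HasDerivAt (fun x : ℝ => (1 + x + x ^ 2 / 2) * exp (-x + x ^ 2 / 9))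
      (exp (-x + x ^ 2 / 9) * (x / 18 * (2 * x ^ 2 - 5 * x + 4))) x := fun x => by
    have a1 : HasDerivAt (fun x : ℝ => 1 + x + x ^ 2 / 2) (1 + x) x :=
      (((hasDerivAt_id x).const_add 1).add ((hasDerivAt_pow 2 x).div_const 2)).congr_deriv
        (by simp)
    have a2 : HasDerivAt (fun x : ℝ => -x + x ^ 2 / 9) (-1 + 2 * x / 9) x :=
      (((hasDerivAt_id x).neg).add ((hasDerivAt_pow 2 x).div_const 9)).congr_deriv (by simp)
    exact (a1.mul a2.exp).congr_deriv (by ring)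
  have hm := monotoneOn_of_deriv_nonneg (convex_Ici (0 : ℝ))
    (f := fun x : ℝ => (1 + x + x ^ 2 / 2) * exp (-x + x ^ 2 / 9))
    (fun x _ => (hd x).continuousAt.continuousWithinAt)
    (fun x _ => (hd x).differentiableAt.differentiableWithinAt)
    (fun x hx => by
      rw [(hd x).deriv]
      have h0 : 0 ≤ x := interior_subset hx
      have h1 : 0 ≤ 2 * x ^ 2 - 5 * x + 4 := by nlinarith [sq_nonneg (x - 5 / 4)]
      positivity)
  have h1 := hm (mem_Ici.2 le_rfl) (mem_Ici.2 hu) hu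
  simp only [ne_eq, OfNat.ofNat_ne_zero, not_false_eq_true, zero_pow, zero_div, add_zero, neg_zero,
    Real.exp_zero, mul_one] at h1
  have h2 : exp (-u + u ^ 2 / 9) * exp (u - u ^ 2 / 9) = 1 := by rw [← Real.exp_add]; simp
  have h6 := mul_le_mul_of_nonneg_right h1 (exp_pos (u - u ^ 2 / 9)).le
  rw [one_mul, mul_assoc, h2, mul_one] at h6
  exact h6

lemma exp_kap {u0 κ v : ℝ} (h0 : 0 ≤ u0) (h1 : u0 ≤ 1)
    (hκ : 1 / 2 + u0 / 6 + u0 ^ 2 / 24 + u0 ^ 3 / 100 ≤ κ) (hv : v ≤ u0) :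
    exp v ≤ 1 + v + κ * v ^ 2 := by
  have hv2 := sq_nonneg v
  rcases le_total v 0 with hu | hu
  · have : 1 / 2 ≤ κ := le_trans (by have := pow_nonneg h0 2; have := pow_nonneg h0 3; linarith) hκ
    refine (exp_neg_quad hu).trans ?_
    nlinarith
  have h2 := Real.exp_bound' hu (hv.trans h1) (n := 5) (by norm_num)
  simp only [Finset.sum_range_succ, Finset.range_zero, Finset.sum_empty, Nat.factorial] at h2
  norm_num at h2
  have h3 : v ^ 2 ≤ u0 ^ 2 := pow_le_pow_left₀ hu hv 2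
  have h4 : v ^ 3 ≤ u0 ^ 3 := pow_le_pow_left₀ hu hv 3
  have h5 : 1 / 2 + v / 6 + v ^ 2 / 24 + v ^ 3 / 100 ≤ κ := by linarith
  have h6 := mul_le_mul_of_nonneg_right h5 hv2
  nlinarith

section
variable {K : ℝ} {μ : Measure ℝ} [IsProbabilityMeasure μ] {q d : ℝ}

theorem HK.delta (h : HK K μ) (g : GB μ d) {θ : ℝ} (hθ : 0 < θ) (w : ℂ) :
    ‖ss μ w ^ 2 - 1‖ ≤ (d / θ + θ * (1 / 2 + K ^ 2 / 9)) * exp (‖w‖ ^ 2) := by
  obtain ⟨ω, hω, hω2⟩ := Complex.exists_norm_eq_mul_self (ss μ w ^ 2 - 1)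
  set c : ℂ := ω * (exp (-‖w‖ ^ 2) : ℝ) with hc
  set F : ℝ → ℂ := fun y => c * Complex.exp (w * y - w ^ 2) with hF
  set E : ℝ → ℝ := fun y => exp (2 * w.re * y - 4 * w.re ^ 2) with hE
  have hFc : Continuous F := by rw [hF]; fun_prop
  have hEc : Continuous E := by rw [hE]; fun_prop
  have hFE : ∀ y, ‖F y‖ ^ 2 = E y := fun y => by
    simp only [hF, hE, hc, norm_mul, hω, one_mul, Complex.norm_real, Complex.norm_exp,
      Real.norm_of_nonneg (exp_pos _).le]
    rw [← Real.exp_add, ← Real.exp_nat_mul, Complex.sq_norm, Complex.normSq_apply]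
    congr 1
    simp [pow_two]; ring
  have e1 : (fun p : ℝ × ℝ => E (p.1 + p.2))
      = fun p => exp (-4 * w.re ^ 2) * (exp (2 * w.re * p.1) * exp (2 * w.re * p.2)) := by
    ext p; simp only [hE]; rw [← Real.exp_add, ← Real.exp_add]; congr 1; ring
  have iEW : Integrable (fun p : ℝ × ℝ => E (p.1 + p.2)) (μ.prod μ) := by
    rw [e1]; exact ((h.int _).mul_prod (h.int _)).const_mul _
  have vEW : ∫ p, E (p.1 + p.2) ∂(μ.prod μ) ≤ K ^ 2 := by
    rw [e1, integral_const_mul, integral_prod_mul (fun x => exp (2 * w.re * x))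
      (fun x => exp (2 * w.re * x))]
    calc _ ≤ exp (-4 * w.re ^ 2) * ((K * exp ((2 * w.re) ^ 2 / 2)) * (K * exp ((2 * w.re) ^ 2 / 2))) :=
          mul_le_mul_of_nonneg_left (mul_self_le_mul_self
            (integral_nonneg fun x => (exp_pos _).le) (h.le _)) (exp_pos _).le
      _ = K ^ 2 * exp (-4 * w.re ^ 2 + ((2 * w.re) ^ 2 / 2 + (2 * w.re) ^ 2 / 2)) := by
          rw [Real.exp_add, Real.exp_add]; ring
      _ = K ^ 2 := by
          rw [show -4 * w.re ^ 2 + ((2 * w.re) ^ 2 / 2 + (2 * w.re) ^ 2 / 2) = 0 by ring]; simp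
  have e2 : E = fun y => exp (-4 * w.re ^ 2) * exp (-0 * y ^ 2 + 2 * w.re * y) := by
    ext y; simp only [hE]; rw [← Real.exp_add]; congr 1; ring
  have hA : (0 : ℝ) < 1 + 2 * 0 * ((2 : ℝ≥0) : ℝ) := by norm_num
  have iEG : Integrable E (gm 2) := by
    rw [e2]; exact (gint_int two_ne_zero hA _).const_mul _
  have vEG : ∫ y, E y ∂(gm 2) = 1 := by
    rw [e2, integral_const_mul, gint two_ne_zero hA]
    simp only [mul_zero, zero_mul, add_zero, Real.sqrt_one, inv_one, one_mul]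
    rw [← Real.exp_add, Real.exp_eq_one_iff]; push_cast; ring
  have hb : ∀ y, ‖F y‖ ≤ 1 + E y := fun y => by
    rw [← hFE]; nlinarith [sq_nonneg (‖F y‖ - 1), norm_nonneg (F y)]
  have iFW : Integrable (fun p : ℝ × ℝ => F (p.1 + p.2)) (μ.prod μ) :=
    ((integrable_const 1).add iEW).mono' (by fun_prop) (Eventually.of_forall fun p => hb _)
  have iFG : Integrable F (gm 2) :=
    ((integrable_const 1).add iEG).mono' (by fun_prop) (Eventually.of_forall hb)
  have vFW : ∫ p, F (p.1 + p.2) ∂(μ.prod μ) = c * ss μ w ^ 2 := by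
    simp only [hF]
    rw [integral_const_mul, pow_two (ss μ w)]
    unfold ss
    rw [← integral_prod_mul]
    congr 2; ext p; unfold ee; rw [← Complex.exp_add]; congr 1; push_cast; ring
  have vFG : ∫ y, F y ∂(gm 2) = c := by
    simp only [hF]
    rw [integral_const_mul]
    have := complexMGF_id_gaussianReal (μ := 0) (v := 2) w
    unfold complexMGF at this
    simp_rw [Complex.exp_sub]
    rw [integral_div]
    unfold gm
    simp only [id] at this
    rw [this, ← Complex.exp_sub]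
    simp
  have rW := integral_re iFW
  have rG := integral_re iFG
  have jW := iFW.re
  have jG := iFG.re
  rw [vFW] at rW; rw [vFG] at rG
  simp only [RCLike.re_to_complex] at rW rG jW jG
  have key := g (fun y => θ * (F y).re - θ ^ 2 / 9 * E y) (fun y => 1 + (θ * (F y).re + θ ^ 2 / 2 * E y))
    (by fun_prop) (by fun_prop) (fun y => by
      have a1 : (F y).re ^ 2 ≤ E y := by
        rw [← hFE, ← sq_abs]
        exact pow_le_pow_left₀ (abs_nonneg _) (Complex.abs_re_le_norm _) 2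
      have a2 := mul_le_mul_of_nonneg_left a1 (sq_nonneg θ)
      have a3 := exp_quad (θ * (F y).re)
      refine (Real.exp_le_exp.2 ?_).trans (a3.trans ?_) <;> nlinarith)
    ((jW.const_mul θ).sub (iEW.const_mul _))
    ((integrable_const 1).add ((jG.const_mul θ).add (iEG.const_mul _)))
  have s := integral_add (integrable_const (1 : ℝ)) ((jG.const_mul θ).add (iEG.const_mul (θ ^ 2 / 2)))
  simp only [Pi.add_apply] at s
  rw [s, integral_sub (jW.const_mul θ) (iEW.const_mul _),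
    integral_add (jG.const_mul θ) (iEG.const_mul _), integral_const_mul, integral_const_mul,
    integral_const_mul, integral_const_mul, rW, rG, vEG] at key
  simp only [integral_const, probReal_univ, smul_eq_mul, mul_one] at key
  have a4 : (c * ss μ w ^ 2).re - c.re = ‖ss μ w ^ 2 - 1‖ * exp (-‖w‖ ^ 2) := by
    rw [← Complex.sub_re, show c * ss μ w ^ 2 - c = ω * (ss μ w ^ 2 - 1) * (exp (-‖w‖ ^ 2) : ℝ) by
      rw [hc]; ring, ← hω2, ← Complex.ofReal_mul, Complex.ofReal_re]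
  have a5 : ‖ss μ w ^ 2 - 1‖ * exp (-‖w‖ ^ 2) ≤ d / θ + θ * (1 / 2 + K ^ 2 / 9) := by
    rw [← a4]
    refine le_of_mul_le_mul_left ?_ hθ
    have : θ * (d / θ + θ * (1 / 2 + K ^ 2 / 9)) = d + θ ^ 2 * (1 / 2 + K ^ 2 / 9) := by field_simp
    rw [this]
    nlinarith [mul_le_mul_of_nonneg_left vEW (sq_nonneg θ)]
  have a6 := mul_le_mul_of_nonneg_right a5 (exp_pos (‖w‖ ^ 2)).le
  rwa [mul_assoc, ← Real.exp_add, neg_add_cancel, Real.exp_zero, mul_one] at a6

/-- The relative entropy of the law of `X + G`. -/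
noncomputable def DD (μ : Measure ℝ) : ℝ := ∫ p, log (rq μ 1 (p.1 + p.2)) ∂(μ.prod (gm 1))

omit [IsProbabilityMeasure μ] in
lemma rq_one (y : ℝ) : rq μ 1 y = √2 * exp (y ^ 2 / 4) * bm μ 1 0 y := by
  unfold rq bm
  rw [← integral_const_mul]
  congr 1; ext x
  unfold kq gw
  rw [pow_zero, one_mul (exp _), mul_assoc (√2), ← Real.exp_add]
  congr 2
  · norm_num
  · ring

lemma log_rq (h2 : MemLp id 2 μ) (y : ℝ) :
    log (rq μ 1 y) = log (√2) + y ^ 2 / 4 + L0 μ 1 y := by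
  rw [rq_one, Real.log_mul (by positivity) (bm_zero_pos one_pos h2 y).ne',
    Real.log_mul (by positivity) (exp_pos _).ne', Real.log_exp]
  rfl

lemma sq_int {ν : Measure ℝ} [IsProbabilityMeasure ν] (h2 : MemLp id 2 μ) (h3 : MemLp id 2 ν) :
    Integrable (fun p : ℝ × ℝ => (p.1 + p.2) ^ 2) (μ.prod ν) :=
  ((h2.comp_fst ν).add (h3.comp_snd μ)).integrable_sq

lemma L0_int {ν : Measure ℝ} [IsProbabilityMeasure ν] {v : ℝ} (hv : 0 < v) (h2 : MemLp id 2 μ)
    (h3 : MemLp id 2 ν) : Integrable (fun p : ℝ × ℝ => L0 μ v (p.1 + p.2)) (μ.prod ν) := by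
  obtain ⟨C, -, hC⟩ := QG_L0 hv h2
  have hc := continuous_L0 hv h2
  exact (((integrable_const 1).add (sq_int h2 h3)).const_mul C).mono' (by fun_prop)
    (Eventually.of_forall fun p => hC _)

lemma log_int (h2 : MemLp id 2 μ) :
    Integrable (fun p : ℝ × ℝ => log (rq μ 1 (p.1 + p.2))) (μ.prod (gm 1)) := by
  simp_rw [log_rq h2]
  have h3 : MemLp id 2 (gm 1) := memLp_id_gaussianReal 2
  exact ((integrable_const _).add ((sq_int h2 h3).div_const 4)).add (L0_int one_pos h2 h3)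

lemma int_sub {f : ℝ → ℝ} (hf : Integrable (fun p : ℝ × ℝ => f (p.1 + p.2)) (μ.prod (gm 1))) :
    Integrable (fun p : ℝ × ℝ => f (p.1 - p.2)) (μ.prod (gm 1)) := by
  have := (mp_neg μ).integrable_comp_of_integrable hf
  refine this.congr (Eventually.of_forall fun p => ?_)
  simp [sub_eq_add_neg]

lemma HK.pair (h : HK K μ) (hq : q ^ 2 ≤ 1) {f : ℝ → ℝ} (hm : Measurable f)
    (hf : Integrable (fun p : ℝ × ℝ => f (p.1 + p.2)) (μ.prod (gm 1))) (e : ℝ)
    (hab : ∀ y z, e + (f y + f z) ≤ rq μ q y * rq μ q z) :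
    e + 2 * ∫ p, f (p.1 + p.2) ∂(μ.prod (gm 1)) ≤ ∫ p, rq μ q (p.1 + p.2) ∂(μ.prod μ) := by
  have hr := measurable_rq μ q
  rw [h.lawW hq]
  have i1 : Integrable (fun p : ℝ × ℝ => rq μ q (p.1 + p.2) * rq μ q (p.1 - p.2))
      (μ.prod (gm 1)) :=
    bdd_int _ (by fun_prop) (K * √(2 / (2 - q ^ 2)) * (K * √(2 / (2 - q ^ 2)))) fun p => by
      rw [abs_mul]
      exact mul_le_mul (h.rq_abs hq _) (h.rq_abs hq _) (abs_nonneg _)
        ((abs_nonneg _).trans (h.rq_abs hq 0))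
  have s := integral_add (integrable_const e) (hf.add (int_sub hf))
  have k := integral_mono ((integrable_const e).add (hf.add (int_sub hf))) i1 fun p => hab _ _
  simp only [Pi.add_apply] at s k
  rw [s, integral_add hf (int_sub hf), sub_eq_add μ hm] at k
  simp only [integral_const, probReal_univ, smul_eq_mul, one_mul] at k
  linarith

lemma HK.jensen (h : HK K μ) (h2 : MemLp id 2 μ) :
    1 + 2 * DD μ ≤ ∫ p, rq μ 1 (p.1 + p.2) ∂(μ.prod μ) := by
  have h11 : (1 : ℝ) ^ 2 ≤ 1 := by norm_num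
  refine h.pair h11 (f := fun y => log (rq μ 1 y)) (measurable_rq μ 1).log (log_int h2) 1
    fun y z => ?_
  have a := h.rq_pos h11 y
  have b := h.rq_pos h11 z
  have := Real.log_le_sub_one_of_pos (mul_pos a b)
  rw [Real.log_mul a.ne' b.ne'] at this
  linarith

lemma HK.DD_le (h : HK K μ) (h2 : MemLp id 2 μ) : DD μ ≤ Psi μ (1 / 2) := by
  have h11 : (1 : ℝ) ^ 2 ≤ 1 := by norm_num
  have hr := measurable_rq μ 1
  have i1 : Integrable (fun p : ℝ × ℝ => rq μ 1 (p.1 + p.2)) (μ.prod (gm 1)) :=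
    bdd_int _ (by fun_prop) _ fun p => h.rq_abs h11 _
  have k := integral_mono (log_int h2) (i1.sub (integrable_const 1))
    fun p => Real.log_le_sub_one_of_pos (h.rq_pos h11 _)
  simp only [Pi.sub_apply] at k
  rw [integral_sub i1 (integrable_const 1), h.lawY hr _ (h.rq_abs h11), h.rr_eq h11 h11] at k
  simp only [integral_const, probReal_univ, smul_eq_mul, one_mul] at k
  unfold DD
  linarith

lemma HK.zz (h : HK K μ) {p : ℝ} (hq : q ^ 2 ≤ 1) (hp : p ^ 2 ≤ 1) :
    Integrable (fun y => (rq μ q y - 1) * (rq μ p y - 1)) (gm 2) ∧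
    ∫ y, (rq μ q y - 1) * (rq μ p y - 1) ∂(gm 2) = Psi μ (q * p / 2) := by
  have e : (fun y => (rq μ q y - 1) * (rq μ p y - 1))
      = fun y => (rq μ q y * rq μ p y - rq μ q y) - (rq μ p y - 1) := by ext y; ring
  have i1 := (h.rr_int hq hp).sub (h.rq_int hq)
  have i2 := (h.rq_int hp).sub (integrable_const (1 : ℝ))
  have s := integral_sub i1 i2
  simp only [Pi.sub_apply] at s
  rw [e]
  refine ⟨i1.sub i2, ?_⟩
  rw [s, integral_sub (h.rr_int hq hp) (h.rq_int hq),
    integral_sub (h.rq_int hp) (integrable_const _), h.rr_eq hq hp, h.rq_mass hq, h.rq_mass hp]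
  simp

lemma HK.amgm (h : HK K μ) (hq : q ^ 2 ≤ 1) {A : ℝ} (hA : K * √2 ≤ A) :
    1 + 2 * Psi μ (q / 2) - A * Psi μ (q * q / 2) ≤ ∫ p, rq μ q (p.1 + p.2) ∂(μ.prod μ) := by
  have h11 : (1 : ℝ) ^ 2 ≤ 1 := by norm_num
  have hr := measurable_rq μ q
  set B := K * √(2 / (2 - q ^ 2)) with hB
  have hb : ∀ y, |rq μ q y - (rq μ q y - 1) * (rq μ q y - 1) / 2| ≤ B + (B + 1) * (B + 1) / 2 :=
    fun y => by
      refine (abs_sub _ _).trans (add_le_add (h.rq_abs hq y) ?_)
      rw [abs_div, abs_mul, abs_two]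
      exact div_le_div_of_nonneg_right (mul_self_le_mul_self (abs_nonneg _) (h.ze_abs hq y))
        zero_le_two
  have hm : Measurable fun y => rq μ q y - (rq μ q y - 1) * (rq μ q y - 1) / 2 := by fun_prop
  have k := h.pair hq hm (bdd_int _ (by fun_prop) _ fun p => hb _) (-1) fun y z => by
    nlinarith [sq_nonneg (rq μ q y + rq μ q z - 2)]
  rw [h.lawY hm _ hb] at k
  obtain ⟨i1, e1⟩ := h.zz hq hq
  have k2 := integral_mono ((h.rr_int h11 hq).sub (i1.const_mul (A / 2)))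
    (g := fun y => rq μ 1 y * (rq μ q y - (rq μ q y - 1) * (rq μ q y - 1) / 2))
    ((h.rq_int h11).mul_bdd hm.aestronglyMeasurable (Eventually.of_forall hb)) fun y => by
      have a := h.rq_le h11 y
      norm_num at a
      have b := mul_le_mul_of_nonneg_right (a.trans hA) (mul_self_nonneg (rq μ q y - 1))
      simp only [Pi.sub_apply]
      nlinarith
  simp only [Pi.sub_apply] at k2
  rw [integral_sub (h.rr_int h11 hq) (i1.const_mul _), integral_const_mul, e1, h.rr_eq h11 hq,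
    one_mul] at k2
  linarith

theorem HK.test (h : HK K μ) (h2 : MemLp id 2 μ) (g : GB μ d) (hq : q ^ 2 ≤ 1) {c κ u0 : ℝ}
    (hc : 0 ≤ c) (hκ : ∀ v ≤ u0, exp v ≤ 1 + v + κ * v ^ 2)
    (hu : (K * √2 - 1) / 2 + c * (K * √(2 / (2 - q ^ 2)) - 1) ≤ u0) :
    DD μ + c * (∫ p, rq μ q (p.1 + p.2) ∂(μ.prod μ) - 1)
      - κ * (Psi μ (1 / 2) / 4 + c * Psi μ (q / 2) + c ^ 2 * Psi μ (q * q / 2)) ≤ d := by
  have h11 : (1 : ℝ) ^ 2 ≤ 1 := by norm_num
  have hr := measurable_rq μ q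
  have hr1 := measurable_rq μ 1
  have i1 : Integrable (fun p : ℝ × ℝ => rq μ 1 (p.1 + p.2)) (μ.prod μ) :=
    bdd_int _ (by fun_prop) _ fun p => h.rq_abs h11 _
  have iq : Integrable (fun p : ℝ × ℝ => rq μ q (p.1 + p.2)) (μ.prod μ) :=
    bdd_int _ (by fun_prop) _ fun p => h.rq_abs hq _
  obtain ⟨j1, e1⟩ := h.zz h11 h11
  obtain ⟨j2, e2⟩ := h.zz h11 hq
  obtain ⟨j3, e3⟩ := h.zz hq hq
  have a1 := (h.rq_int h11).const_mul (1 / 2)
  have a2 := (h.rq_int hq).const_mul c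
  have b1 := j1.const_mul (κ / 4)
  have b2 := j2.const_mul (κ * c)
  have b3 := j3.const_mul (κ * c ^ 2)
  have key := g (fun y => 1 / 2 * rq μ 1 y + c * rq μ q y - (1 / 2 + c))
    (fun y => (1 / 2 - c) + ((1 / 2 * rq μ 1 y + c * rq μ q y)
      + (κ / 4 * ((rq μ 1 y - 1) * (rq μ 1 y - 1)) + (κ * c * ((rq μ 1 y - 1) * (rq μ q y - 1))
      + κ * c ^ 2 * ((rq μ q y - 1) * (rq μ q y - 1))))))
    (by fun_prop) (by fun_prop) (fun y => by
      refine (hκ _ ?_).trans_eq (by ring)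
      have a := h.rq_le h11 y
      norm_num at a
      have b := mul_le_mul_of_nonneg_left (h.rq_le hq y) hc
      nlinarith)
    (((i1.const_mul _).add (iq.const_mul _)).sub (integrable_const _))
    ((integrable_const _).add ((a1.add a2).add (b1.add (b2.add b3))))
  have s1 := integral_sub ((i1.const_mul (1 / 2)).add (iq.const_mul c)) (integrable_const (1 / 2 + c))
  have s2 := integral_add (integrable_const (1 / 2 - c)) ((a1.add a2).add (b1.add (b2.add b3)))
  have s3 := integral_add (a1.add a2) (b1.add (b2.add b3))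
  have s4 := integral_add b1 (b2.add b3)
  simp only [Pi.add_apply] at s1 s2 s3 s4
  rw [s1, s2, s3, s4, integral_add (i1.const_mul _) (iq.const_mul c), integral_add a1 a2,
    integral_add b2 b3] at key
  simp only [integral_const_mul, e1, e2, e3, h.rq_mass h11, h.rq_mass hq, integral_const,
    probReal_univ, smul_eq_mul, one_mul] at key
  have := h.jensen h2
  linarith

end

end Pool.Agent.Lib.MP_cc278a_pr.SG
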